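import Pool.Agent.TH696.FA.Class
import Pool.Agent.W65.FS.Prim

/-!
# Lower bound for the number of representations in an admissible class
-/

set_option autoImplicit false
open Finset

namespace Pool.Agent.TH696.FA
open Pool.Agent.W65.FS

/-- the admissible classes -/
noncomputable def classes (n D : ℕ) : Finset (Fin 4 → ℤ) := by
  classical
  exact (Fintype.piFinset fun _ => Finset.Ico (0 : ℤ) D).filter (fun u => GoodG n D u)

lemma card_classes (n D : ℕ) : (classes n D).card ≤ D ^ 4 := by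
  classical
  unfold classes
  refine (Finset.card_filter_le _ _).trans ?_
  rw [Fintype.card_piFinset]
  simp

lemma goodG_congr (n D : ℕ) (h4 : 4 ∣ D) (u u' : Fin 4 → ℤ) (h : ∀ i, (D : ℤ) ∣ u i - u' i)
    (hu : GoodG n D u) : GoodG n D u' := by
  choose q hq using h
  have hu' : ∀ i, u' i = u i + D * (-q i) := by
    intro i
    linear_combination -hq i
  refine ⟨?_, ?_⟩
  · have := good_modG n D h4 u (2 * D) (dvd_refl _) hu.1 (fun i => -q i)
    simpa only [← hu'] using this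
  · intro l hl hlD
    obtain ⟨i, hi⟩ := hu.2 l hl hlD
    refine ⟨i, fun hd => hi ?_⟩
    have h1 : u i = u' i + D * q i := by linear_combination hq i
    rw [h1]
    exact dvd_add hd (Dvd.dvd.mul_right (by exact_mod_cast hlD) _)

lemma preps_sub (n D : ℕ) (hD : 0 < D) (h4 : 4 ∣ D) :
    preps n ⊆ (classes n D).biUnion (fun u => repsc n D u) := by
  classical
  intro X hX
  unfold preps at hX
  rw [Finset.mem_filter, mem_reps] at hX
  rw [Finset.mem_biUnion]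
  have hD0 : (0 : ℤ) < D := by exact_mod_cast hD
  have hdvd : ∀ i, (D : ℤ) ∣ X i - X i % D := fun i => Int.dvd_self_sub_emod
  refine ⟨fun i => X i % D, ?_, ?_⟩
  · unfold classes
    rw [Finset.mem_filter, Fintype.mem_piFinset]
    refine ⟨fun i => ?_, ?_⟩
    · rw [Finset.mem_Ico]
      exact ⟨Int.emod_nonneg _ hD0.ne', Int.emod_lt_of_pos _ hD0⟩
    · apply goodG_congr n D h4 X _ hdvd
      refine ⟨?_, ?_⟩
      · rw [hX.1, sub_self]
        exact dvd_zero _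
      · intro l hl hlD
        by_contra hall
        push Not at hall
        have h1 : l ∣ gc X := (dvd_gc l X).2 hall
        rw [hX.2] at h1
        exact hl.one_lt.ne' (Nat.dvd_one.1 h1)
  · unfold repsc
    rw [Finset.mem_filter, mem_reps]
    exact ⟨hX.1, hdvd⟩

theorem class_lower (ε : ℝ) (hε : 0 < ε) : ∃ c C : ℝ, 0 < c ∧ 0 < C ∧ ∀ (n D : ℕ), Odd n → 0 < D → 4 ∣ D →
    ∀ u : Fin 4 → ℤ, GoodG n D u →
      c * (n : ℝ) ^ (1 - ε) - C * (D : ℝ) ^ 15 * (n : ℝ) ^ (19 / 20 : ℝ) ≤ (D : ℝ) ^ 4 * ((repsc n D u).card : ℝ) := by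
  classical
  obtain ⟨c, hc, h⟩ := preps_lower ε hε
  obtain ⟨C, hC, hcl⟩ := class_boundG
  refine ⟨c, C, hc, hC, ?_⟩
  intro n D hno hD h4 u hu
  have h1 := h n hno
  have h2 : ((preps n).card : ℝ) ≤ ∑ u' ∈ classes n D, ((repsc n D u').card : ℝ) := by
    have h3 := (Finset.card_le_card (preps_sub n D hD h4)).trans Finset.card_biUnion_le
    exact_mod_cast h3
  have h3 : ∑ u' ∈ classes n D, ((repsc n D u').card : ℝ) ≤
      ∑ u' ∈ classes n D, (((repsc n D u).card : ℝ) + C * (D : ℝ) ^ 11 * (n : ℝ) ^ (19 / 20 : ℝ)) := by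
    apply Finset.sum_le_sum
    intro u' hu'
    have hg : GoodG n D u' := by
      unfold classes at hu'
      exact (Finset.mem_filter.1 hu').2
    have h5 := hcl n D hno.pos hD h4 u' u hg hu
    have h6 := (abs_le.1 h5).2
    linarith
  rw [Finset.sum_const, nsmul_eq_mul] at h3
  have h7 : ((classes n D).card : ℝ) ≤ (D : ℝ) ^ 4 := by exact_mod_cast card_classes n D
  have h8 : ((classes n D).card : ℝ) * (((repsc n D u).card : ℝ) + C * (D : ℝ) ^ 11 * (n : ℝ) ^ (19 / 20 : ℝ)) ≤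
      (D : ℝ) ^ 4 * (((repsc n D u).card : ℝ) + C * (D : ℝ) ^ 11 * (n : ℝ) ^ (19 / 20 : ℝ)) := by
    apply mul_le_mul_of_nonneg_right h7
    positivity
  have h9 : (D : ℝ) ^ 4 * (((repsc n D u).card : ℝ) + C * (D : ℝ) ^ 11 * (n : ℝ) ^ (19 / 20 : ℝ)) =
      (D : ℝ) ^ 4 * ((repsc n D u).card : ℝ) + C * (D : ℝ) ^ 15 * (n : ℝ) ^ (19 / 20 : ℝ) := by ring
  linarith

lemma large_rp (K s : ℝ) (hs : 0 < s) : ∃ n0 : ℕ, ∀ n : ℕ, n0 ≤ n → K ≤ (n : ℝ) ^ s := by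
  have h := (tendsto_rpow_atTop hs).comp tendsto_natCast_atTop_atTop
  have h2 := h.eventually (Filter.eventually_ge_atTop K)
  rw [Filter.eventually_atTop] at h2
  exact h2

/-- every admissible class modulo `D ≤ n ^ δ` has at least `n ^ (1 - ε)` representations -/
theorem class_count (ε : ℝ) (hε : 0 < ε) : ∃ δ : ℝ, 0 < δ ∧ ∃ n0 : ℕ, ∀ (n D : ℕ), n0 ≤ n → Odd n → 0 < D → 4 ∣ D →
    (D : ℝ) ≤ (n : ℝ) ^ δ → ∀ u : Fin 4 → ℤ, GoodG n D u → (n : ℝ) ^ (1 - ε) ≤ ((repsc n D u).card : ℝ) := by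
  set e : ℝ := min ε (1 / 100) with he
  have he0 : 0 < e := lt_min hε (by norm_num)
  have he1 : e ≤ 1 / 100 := min_le_right _ _
  have heε : e ≤ ε := min_le_left _ _
  obtain ⟨c, C, hc, hC, h⟩ := class_lower (e / 4) (by positivity)
  obtain ⟨n1, hn1⟩ := large_rp (2 / c) (e / 2) (by positivity)
  obtain ⟨n2, hn2⟩ := large_rp (2 * C / c) (1 / 100) (by positivity)
  refine ⟨e / 32, by positivity, n1 + n2 + 1, ?_⟩
  intro n D hn hno hD h4 hDn u hu
  have h1 := h n D hno hD h4 u hu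
  have hn0 : (0 : ℝ) < n := by exact_mod_cast hno.pos
  have hnr : (1 : ℝ) ≤ n := by exact_mod_cast hno.pos
  have hD0 : (0 : ℝ) < D := by exact_mod_cast hD
  have hD4 : (D : ℝ) ^ 4 ≤ (n : ℝ) ^ (e / 8) := by
    calc (D : ℝ) ^ 4 ≤ ((n : ℝ) ^ (e / 32)) ^ 4 := by gcongr
      _ = (n : ℝ) ^ (e / 8) := by
        rw [← Real.rpow_natCast, ← Real.rpow_mul hn0.le]
        congr 1; push_cast; ring
  have hD15 : (D : ℝ) ^ 15 ≤ (n : ℝ) ^ (15 * e / 32) := by
    calc (D : ℝ) ^ 15 ≤ ((n : ℝ) ^ (e / 32)) ^ 15 := by gcongr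
      _ = (n : ℝ) ^ (15 * e / 32) := by
        rw [← Real.rpow_natCast, ← Real.rpow_mul hn0.le]
        congr 1; push_cast; ring
  -- main part
  have hA : (D : ℝ) ^ 4 * (n : ℝ) ^ (1 - ε) ≤ c / 2 * (n : ℝ) ^ (1 - e / 4) := by
    have e1 : (n : ℝ) ^ (1 - ε) ≤ (n : ℝ) ^ (1 - e) :=
      Real.rpow_le_rpow_of_exponent_le hnr (by linarith)
    have e2 := hn1 n (by omega)
    calc (D : ℝ) ^ 4 * (n : ℝ) ^ (1 - ε) ≤ (n : ℝ) ^ (e / 8) * (n : ℝ) ^ (1 - e) := by gcongr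
      _ = (n : ℝ) ^ (1 - 7 * e / 8) := by rw [← Real.rpow_add hn0]; congr 1; ring
      _ ≤ (n : ℝ) ^ (1 - e / 4 - e / 2) := Real.rpow_le_rpow_of_exponent_le hnr (by linarith)
      _ = (n : ℝ) ^ (1 - e / 4) / (n : ℝ) ^ (e / 2) := by rw [Real.rpow_sub hn0]
      _ ≤ c / 2 * (n : ℝ) ^ (1 - e / 4) := by
        rw [div_le_iff₀ (by positivity)]
        have e3 : 1 ≤ c / 2 * (n : ℝ) ^ (e / 2) := by
          calc (1 : ℝ) = c / 2 * (2 / c) := by field_simp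
            _ ≤ _ := by gcongr
        calc (n : ℝ) ^ (1 - e / 4) = (n : ℝ) ^ (1 - e / 4) * 1 := (mul_one _).symm
          _ ≤ (n : ℝ) ^ (1 - e / 4) * (c / 2 * (n : ℝ) ^ (e / 2)) := by gcongr
          _ = _ := by ring
  have hB : C * (D : ℝ) ^ 15 * (n : ℝ) ^ (19 / 20 : ℝ) ≤ c / 2 * (n : ℝ) ^ (1 - e / 4) := by
    have e2 := hn2 n (by omega)
    calc C * (D : ℝ) ^ 15 * (n : ℝ) ^ (19 / 20 : ℝ) ≤ C * (n : ℝ) ^ (15 * e / 32) * (n : ℝ) ^ (19 / 20 : ℝ) := by gcongr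
      _ = C * (n : ℝ) ^ (15 * e / 32 + 19 / 20) := by rw [mul_assoc, ← Real.rpow_add hn0]
      _ ≤ C * (n : ℝ) ^ (1 - e / 4 - 1 / 100) := by
        gcongr
        linarith
      _ = C * ((n : ℝ) ^ (1 - e / 4) / (n : ℝ) ^ (1 / 100 : ℝ)) := by rw [← Real.rpow_sub hn0]
      _ ≤ c / 2 * (n : ℝ) ^ (1 - e / 4) := by
        rw [mul_div_assoc', div_le_iff₀ (by positivity)]
        have e3 : C ≤ c / 2 * (n : ℝ) ^ (1 / 100 : ℝ) := by
          calc C = c / 2 * (2 * C / c) := by field_simp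
            _ ≤ _ := by gcongr
        calc C * (n : ℝ) ^ (1 - e / 4) ≤ (c / 2 * (n : ℝ) ^ (1 / 100 : ℝ)) * (n : ℝ) ^ (1 - e / 4) := by gcongr
          _ = _ := by ring
  have hfin : (D : ℝ) ^ 4 * (n : ℝ) ^ (1 - ε) ≤ (D : ℝ) ^ 4 * ((repsc n D u).card : ℝ) := by
    have : c / 2 * (n : ℝ) ^ (1 - e / 4) + c / 2 * (n : ℝ) ^ (1 - e / 4) = c * (n : ℝ) ^ (1 - e / 4) := by ring
    linarith
  exact le_of_mul_le_mul_left hfin (by positivity)

end Pool.Agent.TH696.FA
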