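import Pool.Agent.TH696.FA.Local

/-!
# Four squares with control of all small prime factors of `2^(x+y) + 2^(z+w) + 1`
-/

set_option autoImplicit false
open Finset

namespace Pool.Agent.TH696.FA
open Pool.Agent.W65.FS

/-- the congruences imply the coprimality -/
theorem coprime_main (v L s t : ℕ) (hL : Odd L) (hs : 2 ^ v * L ∣ s) (hs1 : 1 ≤ s) (ht1 : 1 ≤ t)
    (ht : 2 ^ v ∣ t - 1) : Nat.Coprime (2 ^ s + 2 ^ t + 1) (2 * (2 ^ (2 ^ v * L) - 1)) := by
  apply Nat.coprime_of_dvd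
  intro q hq hN hK
  have hq2 : q ≠ 2 := by
    rintro rfl
    obtain ⟨s', rfl⟩ := Nat.exists_eq_add_of_le hs1
    obtain ⟨t', rfl⟩ := Nat.exists_eq_add_of_le ht1
    rw [pow_add, pow_add] at hN
    omega
  have hK' : q ∣ 2 ^ (2 ^ v * L) - 1 := by
    rcases hq.dvd_mul.1 hK with h | h
    · exact absurd ((Nat.prime_dvd_prime_iff_eq hq Nat.prime_two).1 h) hq2
    · exact h
  have : Fact q.Prime := ⟨hq⟩
  have h1 : (2 : ZMod q) ^ (2 ^ v * L) = 1 := by
    have h : ((2 ^ (2 ^ v * L) - 1 : ℕ) : ZMod q) = 0 := (ZMod.natCast_eq_zero_iff _ _).2 hK'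
    rw [Nat.cast_sub Nat.one_le_two_pow] at h
    push_cast at h
    linear_combination h
  have h20 : (2 : ZMod q) ≠ 0 := by
    intro h
    have h3 : ((2 : ℕ) : ZMod q) = 0 := by exact_mod_cast h
    rw [ZMod.natCast_eq_zero_iff] at h3
    exact hq2 ((Nat.prime_dvd_prime_iff_eq hq Nat.prime_two).1 h3)
  obtain ⟨s', rfl⟩ := hs
  have h2 : (2 : ZMod q) ^ (2 ^ v * L * s') = 1 := by rw [pow_mul, h1, one_pow]
  have h3 : (2 : ZMod q) ^ (2 ^ v * L * s') + 2 ^ t + 1 = 0 := by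
    have h : ((2 ^ (2 ^ v * L * s') + 2 ^ t + 1 : ℕ) : ZMod q) = 0 := (ZMod.natCast_eq_zero_iff _ _).2 hN
    push_cast at h
    exact h
  rw [h2] at h3
  have h4 : (2 : ZMod q) ^ (t - 1) = -1 := by
    have e : (2 : ZMod q) ^ t = 2 * 2 ^ (t - 1) := by
      conv_lhs => rw [← Nat.sub_add_cancel ht1, pow_succ]
      ring
    rw [e] at h3
    have h5 : (2 : ZMod q) * (2 ^ (t - 1) + 1) = 0 := by linear_combination h3
    rcases mul_eq_zero.1 h5 with h6 | h6
    · exact absurd h6 h20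
    · linear_combination h6
  obtain ⟨r, hr⟩ := ht
  have h5 : ((2 : ZMod q) ^ (t - 1)) ^ L = 1 := by
    rw [hr, ← pow_mul]
    have : 2 ^ v * r * L = 2 ^ v * L * r := by ring
    rw [this, pow_mul, h1, one_pow]
  rw [h4, hL.neg_one_pow] at h5
  apply h20
  linear_combination -h5

theorem main_count (ε : ℝ) (hε : 0 < ε) : ∃ δ : ℝ, 0 < δ ∧ ∃ n0 : ℕ, ∀ (n K : ℕ), n0 ≤ n → Odd n → 0 < K →
    (K : ℝ) ≤ (n : ℝ) ^ δ → ∃ S : Finset (ℕ × ℕ × ℕ × ℕ), (n : ℝ) ^ (1 - ε) ≤ (S.card : ℝ) ∧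
      ∀ x y z w : ℕ, (x, y, z, w) ∈ S → n = x ^ 2 + y ^ 2 + z ^ 2 + w ^ 2 ∧
        Nat.Coprime (2 ^ (x + y) + 2 ^ (z + w) + 1) (2 * (2 ^ K - 1)) := by
  classical
  obtain ⟨δ, hδ, n1, h⟩ := orth_count ε hε
  obtain ⟨n2, hn2⟩ := large_rp 4 (δ / 2) (by positivity)
  refine ⟨δ / 2, by positivity, n1 + n2, ?_⟩
  intro n K hn hno hK hKn
  obtain ⟨v, L, hL, hKL⟩ := Nat.exists_eq_two_pow_mul_odd hK.ne'
  obtain ⟨u, hu, h01, h23, hu0⟩ := local_class n v L hno hL
  have hDK : 2 ^ (v + 2) * L = 4 * K := by rw [hKL]; ring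
  have hn0 : (0 : ℝ) < n := by exact_mod_cast hno.pos
  have hDn : ((2 ^ (v + 2) * L : ℕ) : ℝ) ≤ (n : ℝ) ^ δ := by
    rw [hDK]
    push_cast
    calc 4 * (K : ℝ) ≤ (n : ℝ) ^ (δ / 2) * (n : ℝ) ^ (δ / 2) := by
          have := hn2 n (by omega)
          gcongr
      _ = (n : ℝ) ^ δ := by rw [← Real.rpow_add hn0]; congr 1; ring
  have hD0 : 0 < 2 ^ (v + 2) * L := by rw [hDK]; omega
  have h4D : 4 ∣ 2 ^ (v + 2) * L := by rw [hDK]; exact dvd_mul_right _ _
  have hcount := h n (2 ^ (v + 2) * L) (by omega) hno hD0 h4D hDn u hu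
  refine ⟨(orth n (2 ^ (v + 2) * L) u).image (fun X => ((X 0).toNat, (X 1).toNat, (X 2).toNat, (X 3).toNat)), ?_, ?_⟩
  · rw [Finset.card_image_of_injOn]
    · exact hcount
    · intro X hX Y hY hXY
      rw [Finset.mem_coe, mem_orth] at hX hY
      simp only [Prod.mk.injEq] at hXY
      obtain ⟨e0, e1, e2, e3⟩ := hXY
      have g := hX.2
      have g' := hY.2
      funext i
      fin_cases i
      · have a1 := g 0; have a2 := g' 0
        show X 0 = Y 0
        omega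
      · have a1 := g 1; have a2 := g' 1
        show X 1 = Y 1
        omega
      · have a1 := g 2; have a2 := g' 2
        show X 2 = Y 2
        omega
      · have a1 := g 3; have a2 := g' 3
        show X 3 = Y 3
        omega
  · intro x y z w hxyzw
    rw [Finset.mem_image] at hxyzw
    obtain ⟨X, hX, hXe⟩ := hxyzw
    rw [mem_orth] at hX
    obtain ⟨⟨hsum, hcong⟩, hpos⟩ := hX
    simp only [Prod.mk.injEq] at hXe
    obtain ⟨e0, e1, e2, e3⟩ := hXe
    have x0 : X 0 = x := by have := hpos 0; omega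
    have x1 : X 1 = y := by have := hpos 1; omega
    have x2 : X 2 = z := by have := hpos 2; omega
    have x3 : X 3 = w := by have := hpos 3; omega
    rw [Fin.sum_univ_four, x0, x1, x2, x3] at hsum
    have c0 := hcong 0
    have c1 := hcong 1
    have c2 := hcong 2
    have c3 := hcong 3
    rw [x0] at c0
    rw [x1] at c1
    rw [x2] at c2
    rw [x3] at c3
    have hs : ((2 ^ (v + 2) * L : ℕ) : ℤ) ∣ (x : ℤ) + y := by
      have e : (x : ℤ) + y = (x - u 0) + (y - u 1) + (u 0 + u 1) := by ring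
      rw [e]
      exact dvd_add (dvd_add c0 c1) h01
    have hpD : (2 : ℤ) ^ (v + 2) ∣ ((2 ^ (v + 2) * L : ℕ) : ℤ) := by
      push_cast; exact dvd_mul_right _ _
    have ht : (2 : ℤ) ^ (v + 2) ∣ (z : ℤ) + w - 1 := by
      have e : (z : ℤ) + w - 1 = (z - u 2) + (w - u 3) + (u 2 + u 3 - 1) := by ring
      rw [e]
      exact dvd_add (dvd_add (hpD.trans c2) (hpD.trans c3)) h23
    have h4p : (4 : ℤ) ∣ 2 ^ (v + 2) := by
      have : (2 : ℤ) ^ (v + 2) = 4 * 2 ^ v := by ring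
      rw [this]; exact dvd_mul_right _ _
    have hx0 : 1 ≤ x := by
      by_contra hx
      have hx' : x = 0 := by omega
      rw [hx'] at c0
      apply hu0
      have := (h4p.trans hpD).trans c0
      simpa using this
    have ht1 : 1 ≤ z + w := by
      by_contra hzw
      have hz : z = 0 := by omega
      have hw : w = 0 := by omega
      rw [hz, hw] at ht
      have := h4p.trans ht
      simp at this
    refine ⟨by exact_mod_cast hsum.symm, ?_⟩
    rw [hKL]
    apply coprime_main v L (x + y) (z + w) hL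
    · have h5 : 2 ^ (v + 2) * L ∣ x + y := by exact_mod_cast hs
      exact (Dvd.intro (4 : ℕ) (by ring)).trans h5
    · omega
    · exact ht1
    · have h5 : (2 : ℤ) ^ (v + 2) ∣ ((z + w - 1 : ℕ) : ℤ) := by
        rw [Nat.cast_sub ht1]; push_cast; exact ht
      have h6 : 2 ^ (v + 2) ∣ z + w - 1 := by exact_mod_cast h5
      exact (pow_dvd_pow 2 (by omega)).trans h6

/-- from a modulus to all small primes -/
lemma small_primes (Y N : ℕ) (h : Nat.Coprime N (2 * (2 ^ (Nat.lcmUpto Y) - 1))) (q : ℕ) (hq : q.Prime)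
    (hqN : q ∣ N) : Y + 1 < q := by
  by_contra hle
  push Not at hle
  have hq0 := hq.two_le
  have hcop : Nat.Coprime q (2 * (2 ^ (Nat.lcmUpto Y) - 1)) := Nat.Coprime.coprime_dvd_left hqN h
  rw [Nat.Prime.coprime_iff_not_dvd hq] at hcop
  apply hcop
  by_cases hq2 : q = 2
  · rw [hq2]; exact dvd_mul_right _ _
  · apply Dvd.dvd.mul_left
    have h1 : q - 1 ∣ Nat.lcmUpto Y := by
      unfold Nat.lcmUpto
      exact Finset.dvd_lcm (f := id) (Finset.mem_Icc.2 ⟨by omega, by omega⟩)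
    have h2 : q ∣ 2 ^ (q - 1) - 1 := by
      have hcop2 : Nat.Coprime 2 q := (Nat.coprime_primes Nat.prime_two hq).2 (Ne.symm hq2)
      have h3 := Nat.ModEq.pow_totient hcop2
      rw [Nat.totient_prime hq] at h3
      exact (Nat.modEq_iff_dvd' Nat.one_le_two_pow).1 h3.symm
    exact h2.trans (Nat.pow_sub_one_dvd_pow_sub_one 2 h1)

theorem main_log (ε : ℝ) (hε : 0 < ε) : ∃ c : ℝ, 0 < c ∧ ∀ n : ℕ, Odd n →
    ∃ S : Finset (ℕ × ℕ × ℕ × ℕ), c * (n : ℝ) ^ (1 - ε) ≤ (S.card : ℝ) ∧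
      ∀ x y z w : ℕ, (x, y, z, w) ∈ S → n = x ^ 2 + y ^ 2 + z ^ 2 + w ^ 2 ∧
        ∀ q : ℕ, q.Prime → q ∣ 2 ^ (x + y) + 2 ^ (z + w) + 1 → c * Real.log n < q := by
  classical
  obtain ⟨δ, hδ, n0, h⟩ := main_count ε hε
  set n1 : ℕ := n0 + 1 with hn1
  set c : ℝ := min (min 1 (δ / 6)) (1 / (n1 + 1)) with hc
  have hc0 : 0 < c := lt_min (lt_min one_pos (by positivity)) (by positivity)
  have hc1 : c ≤ 1 := (min_le_left _ _).trans (min_le_left _ _)
  have hcδ : c ≤ δ / 6 := (min_le_left _ _).trans (min_le_right _ _)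
  have hcn : c ≤ 1 / (n1 + 1) := min_le_right _ _
  refine ⟨c, hc0, ?_⟩
  intro n hno
  have hnr : (1 : ℝ) ≤ n := by exact_mod_cast hno.pos
  have hn0 : (0 : ℝ) < n := by linarith
  have hlog0 : 0 ≤ Real.log n := Real.log_nonneg hnr
  by_cases hbig : n1 ≤ n
  · set Y : ℕ := ⌊c * Real.log n⌋₊ with hY
    have hYle : (Y : ℝ) ≤ c * Real.log n := Nat.floor_le (by positivity)
    have hYlt : c * Real.log n < Y + 1 := Nat.lt_floor_add_one _
    have hK0 : 0 < Nat.lcmUpto Y := Nat.lcmUpto_pos Y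
    have hKn : ((Nat.lcmUpto Y : ℕ) : ℝ) ≤ (n : ℝ) ^ δ := by
      have hK0r : (0 : ℝ) < (Nat.lcmUpto Y : ℕ) := by exact_mod_cast hK0
      rw [← Real.log_le_log_iff hK0r (by positivity), Real.log_rpow hn0, ← Chebyshev.psi_eq_log_lcmUpto]
      have h1 := Chebyshev.psi_le_const_mul_self (x := (Y : ℝ)) (by positivity)
      have h4 : Real.log 4 ≤ 2 := by
        have : Real.log 4 = 2 * Real.log 2 := by
          rw [show (4 : ℝ) = 2 ^ 2 by norm_num, Real.log_pow]; norm_num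
        rw [this]
        have := Real.log_two_lt_d9
        linarith
      calc Chebyshev.psi (Y : ℝ) ≤ (Real.log 4 + 4) * Y := h1
        _ ≤ 6 * (c * Real.log n) := by
          apply mul_le_mul (by linarith) hYle (by positivity) (by norm_num)
        _ ≤ 6 * (δ / 6 * Real.log n) := by gcongr
        _ = δ * Real.log n := by ring
    obtain ⟨S, hS1, hS2⟩ := h n (Nat.lcmUpto Y) (by omega) hno hK0 hKn
    refine ⟨S, ?_, ?_⟩
    · calc c * (n : ℝ) ^ (1 - ε) ≤ 1 * (n : ℝ) ^ (1 - ε) := by gcongr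
        _ ≤ S.card := by rw [one_mul]; exact hS1
    · intro x y z w hxyzw
      obtain ⟨g1, g2⟩ := hS2 x y z w hxyzw
      refine ⟨g1, fun q hq hqN => ?_⟩
      have h7 := small_primes Y _ g2 q hq hqN
      have h8 : ((Y + 1 : ℕ) : ℝ) < q := by exact_mod_cast h7
      push_cast at h8
      linarith
  · push Not at hbig
    obtain ⟨a, b, d, e, habde⟩ := Nat.sum_four_squares n
    have hnn1 : (n : ℝ) ≤ n1 := by exact_mod_cast hbig.le
    have hcn1 : c * n ≤ 1 := by
      calc c * n ≤ 1 / (n1 + 1) * (n1 + 1) := by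
            apply mul_le_mul hcn (by linarith) hn0.le (by positivity)
        _ = 1 := by field_simp
    refine ⟨{(a, b, d, e)}, ?_, ?_⟩
    · rw [Finset.card_singleton, Nat.cast_one]
      have h1 : (n : ℝ) ^ (1 - ε) ≤ (n : ℝ) ^ (1 : ℝ) := Real.rpow_le_rpow_of_exponent_le hnr (by linarith)
      rw [Real.rpow_one] at h1
      calc c * (n : ℝ) ^ (1 - ε) ≤ c * n := by gcongr
        _ ≤ 1 := hcn1
    · intro x y z w hxyzw
      rw [Finset.mem_singleton] at hxyzw
      simp only [Prod.mk.injEq] at hxyzw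
      obtain ⟨rfl, rfl, rfl, rfl⟩ := hxyzw
      refine ⟨habde.symm, fun q hq _ => ?_⟩
      have h1 : Real.log n ≤ n := (Real.log_le_sub_one_of_pos hn0).trans (by linarith)
      have h2 : (2 : ℝ) ≤ q := by exact_mod_cast hq.two_le
      have h3 : c * Real.log n ≤ c * n := by gcongr
      linarith

end Pool.Agent.TH696.FA
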