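import Pool.Agent.TH696.FA.Hens

/-!
# Local solutions for the question on `2^x + 2^y + 2^z + 1`
-/

set_option autoImplicit false
open Finset

namespace Pool.Agent.TH696.FA
open Pool.Agent.W65.FS

/-- the part of the modulus that is coprime to 6 -/
lemma Mpart (α β C n : ℤ) (hC : α * C = β ^ 2 + 2) (M : ℕ) (hM : 0 < M) (hα : IsCoprime α (M : ℤ))
    (h2 : IsCoprime 2 (M : ℤ)) (hsq : ∀ l : ℕ, l.Prime → l ^ 2 ∣ M → ¬ (l : ℤ) ∣ α * n - 2) :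
    ∃ z W : ℤ, (M : ℤ) ∣ α * z ^ 2 + 2 * β * z + C + W ^ 2 - n := by
  set M2 : ℕ := Nat.gcd M (α * n - 2).natAbs with hM2
  obtain ⟨M1, hM1⟩ : M2 ∣ M := Nat.gcd_dvd_left _ _
  have hM20 : 0 < M2 := Nat.gcd_pos_of_pos_left _ hM
  have hM10 : 0 < M1 := by
    rcases Nat.eq_zero_or_pos M1 with h | h
    · rw [h] at hM1; omega
    · exact h
  have hMZ : (M : ℤ) = M2 * M1 := by exact_mod_cast hM1
  have key : ∀ l : ℕ, l.Prime → l ∣ M1 → ¬ (l : ℤ) ∣ α * n - 2 := by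
    intro l hl hlM1 hd
    have h3 : l ∣ M := hM1 ▸ Dvd.dvd.mul_left hlM1 M2
    have h4 : l ∣ M2 := Nat.dvd_gcd h3 (Int.natCast_dvd.1 hd)
    have h5 : l ^ 2 ∣ M := by
      rw [hM1, pow_two]
      exact Nat.mul_dvd_mul h4 hlM1
    exact hsq l hl h5 hd
  have c12 : Nat.Coprime M2 M1 := by
    apply Nat.coprime_of_dvd
    intro l hl h3 h4
    apply key l hl h4
    exact Int.natCast_dvd.2 (h3.trans (Nat.gcd_dvd_right _ _))
  have ct : IsCoprime (α * n - 2) (M1 : ℤ) := by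
    rw [Int.isCoprime_iff_gcd_eq_one, Int.gcd_eq_natAbs, Int.natAbs_natCast]
    apply Nat.coprime_of_dvd
    intro l hl h3 h4
    exact key l hl h4 (Int.natCast_dvd.2 h3)
  have cα1 : IsCoprime (2 * α) (M1 : ℤ) := by
    rw [hMZ] at hα h2
    exact IsCoprime.mul_left h2.of_mul_right_right hα.of_mul_right_right
  obtain ⟨X1, W1, h1⟩ := binary α M1 hM10 cα1 _ ct
  have c12Z : IsCoprime (M2 : ℤ) (M1 : ℤ) := Nat.isCoprime_iff_coprime.2 c12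
  obtain ⟨X, hX2, hX1⟩ := crt2 _ _ c12Z 0 X1
  obtain ⟨W, hW2, hW1⟩ := crt2 _ _ c12Z 0 W1
  rw [sub_zero] at hX2 hW2
  have hM2d : (M2 : ℤ) ∣ α * n - 2 := Int.natCast_dvd.2 (Nat.gcd_dvd_right _ _)
  have hXW : (M : ℤ) ∣ X ^ 2 + α * W ^ 2 - (α * n - 2) := by
    rw [hMZ]
    apply IsCoprime.mul_dvd c12Z
    · have e : X ^ 2 + α * W ^ 2 - (α * n - 2) = X * X + W * (α * W) - (α * n - 2) := by ring
      rw [e]
      exact dvd_sub (dvd_add (hX2.mul_right _) (hW2.mul_right _)) hM2d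
    · have e : X ^ 2 + α * W ^ 2 - (α * n - 2) = (X - X1) * (X + X1) + (W - W1) * (α * (W + W1)) +
        (X1 ^ 2 + α * W1 ^ 2 - (α * n - 2)) := by ring
      rw [e]
      exact dvd_add (dvd_add (hX1.mul_right _) (hW1.mul_right _)) h1
  obtain ⟨a, b, hab⟩ := hα
  refine ⟨a * (X - β), W, ?_⟩
  have hfin : (M : ℤ) ∣ α * (α * (a * (X - β)) ^ 2 + 2 * β * (a * (X - β)) + C + W ^ 2 - n) := by
    have e0 : a * α = 1 - b * M := by linear_combination hab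
    have e1 : α * (a * (X - β)) + β = X - M * (b * (X - β)) := by
      linear_combination (X - β) * e0
    have e : α * (α * (a * (X - β)) ^ 2 + 2 * β * (a * (X - β)) + C + W ^ 2 - n) =
        (α * (a * (X - β)) + β) ^ 2 + α * W ^ 2 - (α * n - 2) := by
      linear_combination hC
    rw [e, e1]
    have e2 : (X - M * (b * (X - β))) ^ 2 + α * W ^ 2 - (α * n - 2) =
      (X ^ 2 + α * W ^ 2 - (α * n - 2)) + M * (-(2 * X * (b * (X - β))) + M * (b * (X - β)) ^ 2) := by ring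
    rw [e2]
    exact dvd_add hXW (dvd_mul_right _ _)
  have hα' : IsCoprime (M : ℤ) α := ⟨b, a, by linear_combination hab⟩
  exact hα'.dvd_of_dvd_mul_left hfin

/-- glueing -/
lemma glue (A B C n : ℤ) (m0 m1 m2 : ℤ) (h01 : IsCoprime m0 m1) (h02 : IsCoprime m0 m2) (h12 : IsCoprime m1 m2)
    (z0 W0 z1 W1 z2 W2 : ℤ) (h0 : m0 ∣ A * z0 ^ 2 + B * z0 + C + W0 ^ 2 - n)
    (h1 : m1 ∣ A * z1 ^ 2 + B * z1 + C + W1 ^ 2 - n) (h2 : m2 ∣ A * z2 ^ 2 + B * z2 + C + W2 ^ 2 - n) :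
    ∃ z W : ℤ, m0 * m1 * m2 ∣ A * z ^ 2 + B * z + C + W ^ 2 - n ∧ m0 ∣ z - z0 ∧ m0 ∣ W - W0 ∧ m1 ∣ z - z1 := by
  obtain ⟨z, a0, a1, a2⟩ := crt3 m0 m1 m2 h01 h02 h12 z0 z1 z2
  obtain ⟨W, b0, b1, b2⟩ := crt3 m0 m1 m2 h01 h02 h12 W0 W1 W2
  have aux : ∀ m z' W' : ℤ, m ∣ z - z' → m ∣ W - W' → m ∣ A * z' ^ 2 + B * z' + C + W' ^ 2 - n →
      m ∣ A * z ^ 2 + B * z + C + W ^ 2 - n := by
    intro m z' W' g1 g2 g3
    have e : A * z ^ 2 + B * z + C + W ^ 2 - n = (z - z') * (A * (z + z') + B) + (W - W') * (W + W') +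
      (A * z' ^ 2 + B * z' + C + W' ^ 2 - n) := by ring
    rw [e]
    exact dvd_add (dvd_add (g1.mul_right _) (g2.mul_right _)) g3
  refine ⟨z, W, ?_, a0, b0, a1⟩
  exact IsCoprime.mul_dvd (IsCoprime.mul_left h02 h12) (IsCoprime.mul_dvd h01 (aux _ _ _ a0 b0 h0) (aux _ _ _ a1 b1 h1))
    (aux _ _ _ a2 b2 h2)

/-- the patterns -/
def Pat (v w : ℕ) (u : Fin 4 → ℤ) : Prop :=
  u 1 = u 0 ∧ (2 : ℤ) ∣ u 3 ∧
    (((u 0 + u 2 + 1 = 0 ∨ u 0 = 2 * u 2 - 1) ∧ ¬ (2 : ℤ) ∣ u 2 ∧ (3 : ℤ) ^ (w + 1) ∣ u 2) ∨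
      (u 2 = u 0 + 1 ∧ (2 : ℤ) ^ (v + 2) ∣ u 0 + 2))

theorem local2 (n v w M : ℕ) (hn : Odd n) (hM : 0 < M) (hM6 : Nat.Coprime 6 M)
    (hsq : ∀ l : ℕ, l.Prime → l ^ 2 ∣ M → ¬ (l : ℤ) ∣ (3 * n - 2) * (9 * n - 2))
    (h3 : 3 ∣ n ∨ n % 32 = 13) :
    ∃ u : Fin 4 → ℤ, GoodG n (2 ^ (v + 2) * 3 ^ (w + 1) * M) u ∧ Pat v w u := by
  have c6 : IsCoprime (6 : ℤ) (M : ℤ) := by exact_mod_cast Nat.isCoprime_iff_coprime.2 hM6
  have c2 : IsCoprime (2 : ℤ) (M : ℤ) := c6.of_isCoprime_of_dvd_left (by norm_num)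
  have c3 : IsCoprime (3 : ℤ) (M : ℤ) := c6.of_isCoprime_of_dvd_left (by norm_num)
  have c9 : IsCoprime (9 : ℤ) (M : ℤ) := by
    have : (9 : ℤ) = 3 ^ 2 := by norm_num
    rw [this]; exact c3.pow_left
  have c23 : IsCoprime ((2 : ℤ) ^ (v + 3)) ((3 : ℤ) ^ (w + 1)) := IsCoprime.pow ⟨-1, 1, by norm_num⟩
  have c2M : IsCoprime ((2 : ℤ) ^ (v + 3)) (M : ℤ) := c2.pow_left
  have c3M : IsCoprime ((3 : ℤ) ^ (w + 1)) (M : ℤ) := c3.pow_left
  have hsq3 : ∀ l : ℕ, l.Prime → l ^ 2 ∣ M → ¬ (l : ℤ) ∣ 3 * n - 2 := fun l hl hlM hd => hsq l hl hlM (hd.mul_right _)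
  have hsq9 : ∀ l : ℕ, l.Prime → l ^ 2 ∣ M → ¬ (l : ℤ) ∣ 9 * n - 2 := fun l hl hlM hd => hsq l hl hlM (hd.mul_left _)
  have hD : (2 * ((2 ^ (v + 2) * 3 ^ (w + 1) * M : ℕ) : ℤ)) = 2 ^ (v + 3) * 3 ^ (w + 1) * M := by push_cast; ring
  have h2p : (2 : ℤ) ∣ 2 ^ (v + 3) := dvd_pow_self _ (by omega)
  rcases h3 with h3 | h32
  · -- `3 ∣ n`
    obtain ⟨j, hj⟩ := h3
    obtain ⟨W1, hW1, _⟩ := sqrt3 ((n : ℤ) - 2) ⟨(j : ℤ) - 1, by rw [hj]; push_cast; ring⟩ (w + 1)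
    obtain ⟨h, hh⟩ := hn
    rcases Nat.even_or_odd h with ⟨h', hh'⟩ | ⟨h', hh'⟩
    · -- n = 4 h' + 1
      obtain ⟨z2, W2, hM2⟩ := Mpart 3 2 2 n (by norm_num) M hM c3 c2 hsq3
      obtain ⟨w0, hw0⟩ : ∃ w0 : ℤ, (2 : ℤ) ∣ h' - 2 - w0 ^ 2 := by
        rcases Nat.even_or_odd h' with ⟨r, hr⟩ | ⟨r, hr⟩
        · exact ⟨0, ⟨r - 1, by rw [hr]; push_cast; ring⟩⟩
        · exact ⟨1, ⟨r - 1, by rw [hr]; push_cast; ring⟩⟩
      obtain ⟨r, c, hr⟩ := hens2 3 5 _ (by decide) (by decide) hw0 v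
      obtain ⟨z, W, hzW, hz0, hW0, hz1⟩ := glue 3 4 2 n _ _ _ c23 c2M c3M (2 * r + 1) (2 * w0) 0 W1 z2 W2
        ⟨c, by
          rw [hh, hh']
          push_cast
          have : (2 : ℤ) ^ (v + 3) = 4 * 2 ^ (v + 1) := by ring
          rw [this]
          linear_combination 4 * hr⟩
        (by
          have e : 3 * (0 : ℤ) ^ 2 + 4 * 0 + 2 + W1 ^ 2 - n = W1 ^ 2 - (n - 2) := by ring
          rw [e]; exact hW1)
        (by
          have e : 3 * z2 ^ 2 + 4 * z2 + 2 + W2 ^ 2 - (n : ℤ) = 3 * z2 ^ 2 + 2 * 2 * z2 + 2 + W2 ^ 2 - n := by ring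
          rw [e]; exact hM2)
      rw [sub_zero] at hz1
      refine ⟨![-z - 1, -z - 1, z, W], ⟨?_, ?_⟩, rfl, ?_, Or.inl ⟨Or.inl ?_, ?_, ?_⟩⟩
      · rw [Fin.sum_univ_four, hD]
        simp only [Matrix.cons_val_zero, Matrix.cons_val_one, Matrix.cons_val]
        have e : (-z - 1) ^ 2 + (-z - 1) ^ 2 + z ^ 2 + W ^ 2 - (n : ℤ) = 3 * z ^ 2 + 4 * z + 2 + W ^ 2 - n := by ring
        rw [e]; exact hzW
      · intro l hl _
        by_contra hall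
        push Not at hall
        have g0 : (l : ℤ) ∣ -z - 1 := hall 0
        have g2 : (l : ℤ) ∣ z := hall 2
        have g : (l : ℤ) ∣ 1 := by
          have := dvd_add g0 g2
          have e : (-z - 1) + z = -1 := by ring
          rw [e] at this
          exact (dvd_neg.1 this)
        exact (Nat.prime_iff_prime_int.1 hl).not_isUnit (isUnit_of_dvd_one g)
      · show (2 : ℤ) ∣ W
        have e : W = (W - 2 * w0) + 2 * w0 := by ring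
        rw [e]; exact dvd_add (h2p.trans hW0) (dvd_mul_right _ _)
      · show -z - 1 + z + 1 = 0
        ring
      · show ¬ (2 : ℤ) ∣ z
        intro hd
        have := dvd_sub hd (h2p.trans hz0)
        have e : z - (z - (2 * r + 1)) = 2 * r + 1 := by ring
        rw [e] at this
        omega
      · exact hz1
    · -- n = 4 h' + 3
      obtain ⟨z2, W2, hM2⟩ := Mpart 9 (-4) 2 n (by norm_num) M hM c9 c2 hsq9
      obtain ⟨w0, hw0⟩ : ∃ w0 : ℤ, (2 : ℤ) ∣ h' - w0 ^ 2 := by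
        rcases Nat.even_or_odd h' with ⟨r, hr⟩ | ⟨r, hr⟩
        · exact ⟨0, ⟨r, by rw [hr]; push_cast; ring⟩⟩
        · exact ⟨1, ⟨r, by rw [hr]; push_cast; ring⟩⟩
      obtain ⟨r, c, hr⟩ := hens2 9 5 _ (by decide) (by decide) hw0 v
      obtain ⟨z, W, hzW, hz0, hW0, hz1⟩ := glue 9 (-8) 2 n _ _ _ c23 c2M c3M (2 * r + 1) (2 * w0) 0 W1 z2 W2
        ⟨c, by
          rw [hh, hh']
          push_cast
          have : (2 : ℤ) ^ (v + 3) = 4 * 2 ^ (v + 1) := by ring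
          rw [this]
          linear_combination 4 * hr⟩
        (by
          have e : 9 * (0 : ℤ) ^ 2 + (-8) * 0 + 2 + W1 ^ 2 - n = W1 ^ 2 - (n - 2) := by ring
          rw [e]; exact hW1)
        (by
          have e : 9 * z2 ^ 2 + (-8) * z2 + 2 + W2 ^ 2 - (n : ℤ) = 9 * z2 ^ 2 + 2 * (-4) * z2 + 2 + W2 ^ 2 - n := by ring
          rw [e]; exact hM2)
      rw [sub_zero] at hz1
      refine ⟨![2 * z - 1, 2 * z - 1, z, W], ⟨?_, ?_⟩, rfl, ?_, Or.inl ⟨Or.inr rfl, ?_, ?_⟩⟩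
      · rw [Fin.sum_univ_four, hD]
        simp only [Matrix.cons_val_zero, Matrix.cons_val_one, Matrix.cons_val]
        have e : (2 * z - 1) ^ 2 + (2 * z - 1) ^ 2 + z ^ 2 + W ^ 2 - (n : ℤ) = 9 * z ^ 2 + (-8) * z + 2 + W ^ 2 - n := by ring
        rw [e]; exact hzW
      · intro l hl _
        by_contra hall
        push Not at hall
        have g0 : (l : ℤ) ∣ 2 * z - 1 := hall 0
        have g2 : (l : ℤ) ∣ z := hall 2
        have g : (l : ℤ) ∣ 1 := by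
          have := dvd_sub (g2.mul_left 2) g0
          have e : 2 * z - (2 * z - 1) = 1 := by ring
          rw [e] at this
          exact this
        exact (Nat.prime_iff_prime_int.1 hl).not_isUnit (isUnit_of_dvd_one g)
      · show (2 : ℤ) ∣ W
        have e : W = (W - 2 * w0) + 2 * w0 := by ring
        rw [e]; exact dvd_add (h2p.trans hW0) (dvd_mul_right _ _)
      · show ¬ (2 : ℤ) ∣ z
        intro hd
        have := dvd_sub hd (h2p.trans hz0)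
        have e : z - (z - (2 * r + 1)) = 2 * r + 1 := by ring
        rw [e] at this
        omega
      · exact hz1
  · -- `n = 32 k + 13`
    obtain ⟨k, hk⟩ : ∃ k : ℕ, n = 32 * k + 13 := ⟨n / 32, by omega⟩
    obtain ⟨z2, W2, hM2⟩ := Mpart 3 1 1 n (by norm_num) M hM c3 c2 hsq3
    obtain ⟨w0, ⟨c, hc⟩, _⟩ := sqrt2 (8 * (k : ℤ) + 1) ⟨k, by ring⟩ v
    obtain ⟨z1, hz1'⟩ := lin3 ((n : ℤ) - 1) (w + 1)
    obtain ⟨z, W, hzW, hz0, hW0, hz1⟩ := glue 3 2 1 n _ _ _ c23 c2M c3M (-2) (2 * w0) z1 0 z2 W2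
      ⟨4 * c, by
        rw [hk]
        push_cast
        linear_combination 4 * hc⟩
      (by
        have e : 3 * z1 ^ 2 + 2 * z1 + 1 + (0 : ℤ) ^ 2 - n = 3 * z1 ^ 2 + 2 * z1 - (n - 1) := by ring
        rw [e]; exact hz1')
      (by
        have e : 3 * z2 ^ 2 + 2 * z2 + 1 + W2 ^ 2 - (n : ℤ) = 3 * z2 ^ 2 + 2 * 1 * z2 + 1 + W2 ^ 2 - n := by ring
        rw [e]; exact hM2)
    refine ⟨![z, z, z + 1, W], ⟨?_, ?_⟩, rfl, ?_, Or.inr ⟨rfl, ?_⟩⟩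
    · rw [Fin.sum_univ_four, hD]
      simp only [Matrix.cons_val_zero, Matrix.cons_val_one, Matrix.cons_val]
      have e : z ^ 2 + z ^ 2 + (z + 1) ^ 2 + W ^ 2 - (n : ℤ) = 3 * z ^ 2 + 2 * z + 1 + W ^ 2 - n := by ring
      rw [e]; exact hzW
    · intro l hl _
      by_contra hall
      push Not at hall
      have g0 : (l : ℤ) ∣ z := hall 0
      have g2 : (l : ℤ) ∣ z + 1 := hall 2
      have g : (l : ℤ) ∣ 1 := by
        have := dvd_sub g2 g0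
        simpa using this
      exact (Nat.prime_iff_prime_int.1 hl).not_isUnit (isUnit_of_dvd_one g)
    · show (2 : ℤ) ∣ W
      have e : W = (W - 2 * w0) + 2 * w0 := by ring
      rw [e]; exact dvd_add (h2p.trans hW0) (dvd_mul_right _ _)
    · show (2 : ℤ) ^ (v + 2) ∣ z + 2
      have e : z + 2 = z - -2 := by ring
      rw [e]
      exact (pow_dvd_pow 2 (by omega)).trans hz0

end Pool.Agent.TH696.FA
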