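import Pool.Agent.TH696.FA.Final
import Pool.Agent.TH696.FA.Local2

/-!
# `x^2+y^2+z^2+4w^2` with control of all small prime factors of `2^x + 2^y + 2^z + 1`
-/

set_option autoImplicit false
open Finset

namespace Pool.Agent.TH696.FA
open Pool.Agent.W65.FS

/-- congruent exponents give equal powers -/
lemma pow_congr_of_dvd {q : ℕ} [Fact q.Prime] (K : ℕ) (h1 : (2 : ZMod q) ^ K = 1) (i j : ℕ)
    (hij : (K : ℤ) ∣ (i : ℤ) - j) : (2 : ZMod q) ^ i = 2 ^ j := by
  have aux : ∀ i j : ℕ, i ≤ j → (K : ℤ) ∣ (j : ℤ) - i → (2 : ZMod q) ^ i = 2 ^ j := by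
    intro i j hle hd
    obtain ⟨r, rfl⟩ := Nat.exists_eq_add_of_le hle
    have hd' : (K : ℤ) ∣ (r : ℤ) := by
      have e : ((i + r : ℕ) : ℤ) - i = r := by push_cast; ring
      rwa [e] at hd
    obtain ⟨s, rfl⟩ : K ∣ r := by exact_mod_cast hd'
    rw [pow_add, pow_mul, h1, one_pow, mul_one]
  rcases le_total i j with h | h
  · apply aux i j h
    have := (dvd_neg (a := (K : ℤ))).2 hij
    have e : -((i : ℤ) - j) = j - i := by ring
    rwa [e] at this
  · exact (aux j i h hij).symm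

theorem coprime2 (v w M : ℕ) (hM : 0 < M) (hM6 : Nat.Coprime 6 M) (u : Fin 4 → ℤ) (hP : Pat v w u)
    (x y z : ℕ) (hx : ((2 ^ (v + 2) * 3 ^ (w + 1) * M : ℕ) : ℤ) ∣ (x : ℤ) - u 0)
    (hy : ((2 ^ (v + 2) * 3 ^ (w + 1) * M : ℕ) : ℤ) ∣ (y : ℤ) - u 1)
    (hz : ((2 ^ (v + 2) * 3 ^ (w + 1) * M : ℕ) : ℤ) ∣ (z : ℤ) - u 2) :
    Nat.Coprime (2 ^ x + 2 ^ y + 2 ^ z + 1) (2 * (2 ^ (2 ^ v * 3 ^ w * M) - 1)) := by
  set D : ℕ := 2 ^ (v + 2) * 3 ^ (w + 1) * M with hD
  have h12 : D = 12 * (2 ^ v * 3 ^ w * M) := by rw [hD]; ring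
  obtain ⟨hu1, hu3, hpat⟩ := hP
  have hMo : Odd M := by
    rcases Nat.even_or_odd M with h | h
    · exfalso
      have h2 : 2 ∣ M := h.two_dvd
      have := Nat.dvd_gcd (show 2 ∣ 6 by norm_num) h2
      rw [hM6] at this
      norm_num at this
    · exact h
  have hM3 : Nat.Coprime 3 M := Nat.Coprime.coprime_dvd_left (by norm_num) hM6
  have d12 : (12 : ℤ) ∣ (D : ℤ) := by rw [h12]; push_cast; exact dvd_mul_right _ _
  have d3 : (3 : ℤ) ∣ (D : ℤ) := dvd_trans (by norm_num) d12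
  have d4 : (4 : ℤ) ∣ (D : ℤ) := dvd_trans (by norm_num) d12
  have dK : ((2 ^ v * 3 ^ w * M : ℕ) : ℤ) ∣ (D : ℤ) := by rw [h12]; push_cast; exact dvd_mul_left _ _
  have x3 := d3.trans hx
  have y3 := d3.trans hy
  have z3 := d3.trans hz
  have x4 := d4.trans hx
  have y4 := d4.trans hy
  have z4 := d4.trans hz
  have hpos : 1 ≤ x ∧ 1 ≤ y ∧ z % 2 = 1 := by
    rcases hpat with ⟨h2, hodd, h3⟩ | ⟨h2, h3⟩
    · have h33 : (3 : ℤ) ∣ u 2 := (dvd_pow_self (3 : ℤ) (Nat.succ_ne_zero w)).trans h3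
      rcases h2 with h2 | h2
      · refine ⟨?_, ?_, ?_⟩ <;> omega
      · refine ⟨?_, ?_, ?_⟩ <;> omega
    · have h44 : (4 : ℤ) ∣ u 0 + 2 := by
        have : (2 : ℤ) ^ (v + 2) = 4 * 2 ^ v := by ring
        rw [this] at h3
        exact (dvd_mul_right _ _).trans h3
      refine ⟨?_, ?_, ?_⟩ <;> omega
  obtain ⟨hx1, hy1, hzodd⟩ := hpos
  apply Nat.coprime_of_dvd
  intro q hq hN hK
  have hq2 : q ≠ 2 := by
    rintro rfl
    obtain ⟨x', rfl⟩ := Nat.exists_eq_add_of_le hx1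
    obtain ⟨y', rfl⟩ := Nat.exists_eq_add_of_le hy1
    obtain ⟨z', rfl⟩ := Nat.exists_eq_add_of_le (show 1 ≤ z by omega)
    rw [pow_add, pow_add, pow_add] at hN
    omega
  have hK' : q ∣ 2 ^ (2 ^ v * 3 ^ w * M) - 1 := by
    rcases hq.dvd_mul.1 hK with h | h
    · exact absurd ((Nat.prime_dvd_prime_iff_eq hq Nat.prime_two).1 h) hq2
    · exact h
  have : Fact q.Prime := ⟨hq⟩
  have h1 : (2 : ZMod q) ^ (2 ^ v * 3 ^ w * M) = 1 := by
    have h : ((2 ^ (2 ^ v * 3 ^ w * M) - 1 : ℕ) : ZMod q) = 0 := (ZMod.natCast_eq_zero_iff _ _).2 hK'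
    rw [Nat.cast_sub Nat.one_le_two_pow] at h
    push_cast at h
    linear_combination h
  have h20 : (2 : ZMod q) ≠ 0 := by
    intro h
    have h3 : ((2 : ℕ) : ZMod q) = 0 := by exact_mod_cast h
    rw [ZMod.natCast_eq_zero_iff] at h3
    exact hq2 ((Nat.prime_dvd_prime_iff_eq hq Nat.prime_two).1 h3)
  have h3 : (2 : ZMod q) ^ x + 2 ^ y + 2 ^ z + 1 = 0 := by
    have h : ((2 ^ x + 2 ^ y + 2 ^ z + 1 : ℕ) : ZMod q) = 0 := (ZMod.natCast_eq_zero_iff _ _).2 hN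
    push_cast at h
    exact h
  have hyx : (2 : ZMod q) ^ y = 2 ^ x := by
    apply pow_congr_of_dvd _ h1
    apply dK.trans
    have e : (y : ℤ) - x = (y - u 1) - (x - u 0) := by rw [hu1]; ring
    rw [e]; exact dvd_sub hy hx
  rw [hyx] at h3
  -- the cyclotomic case
  have cyc : (3 : ℤ) ^ (w + 1) ∣ u 2 → (2 : ZMod q) ^ z * 2 ^ z + 2 ^ z + 1 = 0 → False := by
    intro h3u hcyc
    have hz3 : 3 ^ (w + 1) ∣ z := by
      have hd : (3 : ℤ) ^ (w + 1) ∣ (D : ℤ) := by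
        rw [hD]; push_cast; exact (dvd_mul_left _ _).mul_right _
      have := dvd_add (hd.trans hz) h3u
      have e : (z : ℤ) - u 2 + u 2 = z := by ring
      rw [e] at this
      exact_mod_cast this
    have ha3 : (2 : ZMod q) ^ (3 * z) = 1 := by
      have e : (2 : ZMod q) ^ (3 * z) = (2 ^ z) ^ 3 := by rw [← pow_mul, mul_comm]
      rw [e]
      linear_combination ((2 : ZMod q) ^ z - 1) * hcyc
    have ho1 := orderOf_dvd_of_pow_eq_one h1
    have ho2 := orderOf_dvd_of_pow_eq_one ha3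
    set o := orderOf (2 : ZMod q) with ho
    have hoz : o ∣ z := by
      obtain ⟨z', hz'⟩ := hz3
      have g1 : o ∣ 3 ^ w * (2 ^ v * M) := by
        have e : 3 ^ w * (2 ^ v * M) = 2 ^ v * 3 ^ w * M := by ring
        rw [e]; exact ho1
      have g2 : o ∣ 3 ^ w * (9 * z') := by
        have e : 3 ^ w * (9 * z') = 3 * z := by rw [hz']; ring
        rw [e]; exact ho2
      have g3 := Nat.dvd_gcd g2 g1
      rw [Nat.gcd_mul_left] at g3
      have c9 : Nat.Coprime 9 (2 ^ v * M) := by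
        apply Nat.Coprime.mul_right
        · exact Nat.Coprime.pow_right _ (by norm_num)
        · have : (9 : ℕ) = 3 ^ 2 := by norm_num
          rw [this]; exact Nat.Coprime.pow_left _ hM3
      rw [Nat.Coprime.gcd_mul_left_cancel _ c9] at g3
      have g4 : 3 ^ w * Nat.gcd z' (2 ^ v * M) ∣ 3 ^ w * z' := Nat.mul_dvd_mul_left _ (Nat.gcd_dvd_left _ _)
      have g5 : 3 ^ w * z' ∣ z := by
        rw [hz']
        exact ⟨3, by ring⟩
      exact g3.trans (g4.trans g5)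
    have ha1 : (2 : ZMod q) ^ z = 1 := orderOf_dvd_iff_pow_eq_one.1 hoz
    rw [ha1] at hcyc
    have hm1 : (2 : ZMod q) = -1 := by linear_combination hcyc
    have hzo : Odd z := Nat.odd_iff.2 hzodd
    have h5 : (2 : ZMod q) ^ z = -1 := by
      rw [hm1]; exact hzo.neg_one_pow
    rw [ha1] at h5
    apply h20
    linear_combination h5
  rcases hpat with ⟨h2, hodd, h3u⟩ | ⟨h2, h3u⟩
  · apply cyc h3u
    rcases h2 with h2 | h2
    · -- `x + z + 1 = 0`
      have e1 : (2 : ZMod q) ^ (x + z + 1) = 2 ^ 0 := by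
        apply pow_congr_of_dvd _ h1
        apply dK.trans
        have e : ((x + z + 1 : ℕ) : ℤ) - ((0 : ℕ) : ℤ) = (x - u 0) + (z - u 2) + (u 0 + u 2 + 1) := by push_cast; ring
        rw [e, h2, add_zero]
        exact dvd_add hx hz
      rw [pow_add, pow_add, pow_zero, pow_one] at e1
      linear_combination (2 : ZMod q) ^ z * h3 - e1
    · -- `x + 1 = 2 z`
      have e1 : (2 : ZMod q) ^ (x + 1) = 2 ^ (z + z) := by
        apply pow_congr_of_dvd _ h1
        apply dK.trans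
        have e : ((x + 1 : ℕ) : ℤ) - ((z + z : ℕ) : ℤ) = (x - u 0) - 2 * (z - u 2) := by
          rw [h2]; push_cast; ring
        rw [e]
        exact dvd_sub hx (hz.mul_left _)
      rw [pow_add, pow_add, pow_one] at e1
      linear_combination h3 - e1
  · -- `z = x + 1`
    have e1 : (2 : ZMod q) ^ z = 2 ^ (x + 1) := by
      apply pow_congr_of_dvd _ h1
      apply dK.trans
      have e : (z : ℤ) - ((x + 1 : ℕ) : ℤ) = (z - u 2) - (x - u 0) := by
        rw [h2]; push_cast; ring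
      rw [e]; exact dvd_sub hz hx
    have hx2 : 2 ^ v ∣ x + 2 := by
      have hd : (2 : ℤ) ^ (v + 2) ∣ (D : ℤ) := by
        rw [hD]; push_cast; exact (dvd_mul_right _ _).mul_right _
      have := dvd_add (hd.trans hx) h3u
      have e : (x : ℤ) - u 0 + (u 0 + 2) = ((x + 2 : ℕ) : ℤ) := by push_cast; ring
      rw [e] at this
      have h6 : 2 ^ (v + 2) ∣ x + 2 := by exact_mod_cast this
      exact (pow_dvd_pow 2 (by omega)).trans h6
    obtain ⟨r, hr⟩ := hx2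
    have h4 : (2 : ZMod q) ^ (x + 2) = -1 := by
      rw [e1] at h3
      rw [pow_succ] at h3
      rw [pow_add]
      linear_combination h3
    have hodd : Odd (3 ^ w * M) := (Odd.pow (by decide)).mul hMo
    have h5 : ((2 : ZMod q) ^ (x + 2)) ^ (3 ^ w * M) = 1 := by
      rw [hr, ← pow_mul]
      have : 2 ^ v * r * (3 ^ w * M) = 2 ^ v * 3 ^ w * M * r := by ring
      rw [this, pow_mul, h1, one_pow]
    rw [h4, hodd.neg_one_pow] at h5
    apply h20
    linear_combination -h5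

theorem main_count2 (ε : ℝ) (hε : 0 < ε) : ∃ δ : ℝ, 0 < δ ∧ ∃ n0 : ℕ, ∀ (n K : ℕ), n0 ≤ n → Odd n →
    (3 ∣ n ∨ n % 32 = 13) → 0 < K → (K : ℝ) ≤ (n : ℝ) ^ δ →
    (∀ l : ℕ, l.Prime → 5 ≤ l → l ^ 2 ∣ K → ¬ (l : ℤ) ∣ (3 * n - 2) * (9 * n - 2)) →
    ∃ S : Finset (ℕ × ℕ × ℕ × ℕ), (n : ℝ) ^ (1 - ε) ≤ (S.card : ℝ) ∧
      ∀ x y z w : ℕ, (x, y, z, w) ∈ S → n = x ^ 2 + y ^ 2 + z ^ 2 + 4 * w ^ 2 ∧
        Nat.Coprime (2 ^ x + 2 ^ y + 2 ^ z + 1) (2 * (2 ^ K - 1)) := by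
  classical
  obtain ⟨δ, hδ, n1, h⟩ := orth_count ε hε
  obtain ⟨n2, hn2⟩ := large_rp 12 (δ / 2) (by positivity)
  refine ⟨δ / 2, by positivity, n1 + n2, ?_⟩
  intro n K hn hno hres hK hKn hsq
  obtain ⟨v, L, hL, hKL⟩ := Nat.exists_eq_two_pow_mul_odd hK.ne'
  have hL0 : L ≠ 0 := by rintro rfl; simp at hL
  obtain ⟨w, M, hM3, hLM⟩ := Nat.exists_eq_pow_mul_and_not_dvd hL0 3 (by norm_num)
  have hM0 : 0 < M := by
    rcases Nat.eq_zero_or_pos M with h0 | h0
    · rw [h0] at hM3; simp at hM3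
    · exact h0
  have hM2 : ¬ 2 ∣ M := by
    intro h2
    rw [hLM] at hL
    have h2' : 2 ∣ 3 ^ w * M := h2.mul_left _
    exact (Nat.not_even_iff_odd.2 hL) (even_iff_two_dvd.2 h2')
  have hM6 : Nat.Coprime 6 M := by
    have e : (6 : ℕ) = 2 * 3 := by norm_num
    rw [e]
    exact Nat.Coprime.mul_left ((Nat.Prime.coprime_iff_not_dvd Nat.prime_two).2 hM2)
      ((Nat.Prime.coprime_iff_not_dvd Nat.prime_three).2 hM3)
  have hKM : K = 2 ^ v * 3 ^ w * M := by rw [hKL, hLM]; ring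
  have hsqM : ∀ l : ℕ, l.Prime → l ^ 2 ∣ M → ¬ (l : ℤ) ∣ (3 * n - 2) * (9 * n - 2) := by
    intro l hl hlM
    have hlM' : l ∣ M := (dvd_pow_self l two_ne_zero).trans hlM
    apply hsq l hl
    · by_contra hlt
      push Not at hlt
      have h2 := hl.two_le
      have h5 : l = 2 ∨ l = 3 ∨ l = 4 := by omega
      rcases h5 with rfl | rfl | rfl
      · exact hM2 hlM'
      · exact hM3 hlM'
      · exact absurd hl (by norm_num)
    · rw [hKM]; exact hlM.mul_left _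
  obtain ⟨u, hu, hP⟩ := local2 n v w M hno hM0 hM6 hsqM hres
  have hDK : 2 ^ (v + 2) * 3 ^ (w + 1) * M = 12 * K := by rw [hKM]; ring
  have hn0 : (0 : ℝ) < n := by exact_mod_cast hno.pos
  have hDn : ((2 ^ (v + 2) * 3 ^ (w + 1) * M : ℕ) : ℝ) ≤ (n : ℝ) ^ δ := by
    rw [hDK]
    push_cast
    calc 12 * (K : ℝ) ≤ (n : ℝ) ^ (δ / 2) * (n : ℝ) ^ (δ / 2) := by
          have := hn2 n (by omega)
          gcongr
      _ = (n : ℝ) ^ δ := by rw [← Real.rpow_add hn0]; congr 1; ring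
  have hD0 : 0 < 2 ^ (v + 2) * 3 ^ (w + 1) * M := by rw [hDK]; omega
  have h4D : 4 ∣ 2 ^ (v + 2) * 3 ^ (w + 1) * M := by rw [hDK]; exact Dvd.dvd.mul_right (by norm_num) _
  have h2D : (2 : ℤ) ∣ ((2 ^ (v + 2) * 3 ^ (w + 1) * M : ℕ) : ℤ) := by
    rw [hDK]; push_cast; exact Dvd.dvd.mul_right (by norm_num) _
  have hcount := h n (2 ^ (v + 2) * 3 ^ (w + 1) * M) (by omega) hno hD0 h4D hDn u hu
  refine ⟨(orth n (2 ^ (v + 2) * 3 ^ (w + 1) * M) u).image
    (fun X => ((X 0).toNat, (X 1).toNat, (X 2).toNat, (X 3).toNat / 2)), ?_, ?_⟩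
  · rw [Finset.card_image_of_injOn]
    · exact hcount
    · intro X hX Y hY hXY
      rw [Finset.mem_coe, mem_orth] at hX hY
      simp only [Prod.mk.injEq] at hXY
      obtain ⟨e0, e1, e2, e3⟩ := hXY
      have g := hX.2
      have g' := hY.2
      have k3 := h2D.trans (hX.1.2 3)
      have k3' := h2D.trans (hY.1.2 3)
      have hu3 := hP.2.1
      funext i
      fin_cases i
      · have a1 := g 0; have a2 := g' 0
        show X 0 = Y 0
        omega
      · have a1 := g 1; have a2 := g' 1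
        show X 1 = Y 1
        omega
      · have a1 := g 2; have a2 := g' 2
        show X 2 = Y 2
        omega
      · have a1 := g 3; have a2 := g' 3
        show X 3 = Y 3
        omega
  · intro x y z w' hxyzw
    rw [Finset.mem_image] at hxyzw
    obtain ⟨X, hX, hXe⟩ := hxyzw
    rw [mem_orth] at hX
    obtain ⟨⟨hsum, hcong⟩, hpos⟩ := hX
    simp only [Prod.mk.injEq] at hXe
    obtain ⟨e0, e1, e2, e3⟩ := hXe
    have k3 := h2D.trans (hcong 3)
    have hu3 := hP.2.1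
    have x0 : X 0 = x := by have := hpos 0; omega
    have x1 : X 1 = y := by have := hpos 1; omega
    have x2 : X 2 = z := by have := hpos 2; omega
    have x3 : X 3 = 2 * w' := by have := hpos 3; omega
    rw [Fin.sum_univ_four, x0, x1, x2, x3] at hsum
    have c0 := hcong 0
    have c1 := hcong 1
    have c2 := hcong 2
    rw [x0] at c0
    rw [x1] at c1
    rw [x2] at c2
    refine ⟨?_, ?_⟩
    · have : (n : ℤ) = ((x ^ 2 + y ^ 2 + z ^ 2 + 4 * w' ^ 2 : ℕ) : ℤ) := by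
        push_cast
        linear_combination -hsum
      exact_mod_cast this
    · rw [hKM]
      exact coprime2 v w M hM0 hM6 u hP x y z c0 c1 c2

end Pool.Agent.TH696.FA
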