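import Pool.Agent.TH696.FA.Local2

/-!
# Local solutions without a condition at the prime 3
-/

set_option autoImplicit false
open Finset

namespace Pool.Agent.TH696.FA
open Pool.Agent.W65.FS

/-- solutions modulo `2^(v+3) M` -/
lemma base_sol (n v M : ℕ) (hn : Odd n) (hM : 0 < M) (hM6 : Nat.Coprime 6 M)
    (hsq : ∀ l : ℕ, l.Prime → l ^ 2 ∣ M → ¬ (l : ℤ) ∣ (3 * n - 2) * (9 * n - 2)) :
    ∃ X Z W : ℤ, (2 : ℤ) ^ (v + 3) * M ∣ X ^ 2 + X ^ 2 + Z ^ 2 + W ^ 2 - n ∧ (2 : ℤ) ∣ W ∧ ¬ (2 : ℤ) ∣ Z ∧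
      (X + Z + 1 = 0 ∨ X = 2 * Z - 1) := by
  have c6 : IsCoprime (6 : ℤ) (M : ℤ) := by exact_mod_cast Nat.isCoprime_iff_coprime.2 hM6
  have c2 : IsCoprime (2 : ℤ) (M : ℤ) := c6.of_isCoprime_of_dvd_left (by norm_num)
  have c3 : IsCoprime (3 : ℤ) (M : ℤ) := c6.of_isCoprime_of_dvd_left (by norm_num)
  have c9 : IsCoprime (9 : ℤ) (M : ℤ) := by
    have : (9 : ℤ) = 3 ^ 2 := by norm_num
    rw [this]; exact c3.pow_left
  have c2M : IsCoprime ((2 : ℤ) ^ (v + 3)) (M : ℤ) := c2.pow_left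
  have hsq3 : ∀ l : ℕ, l.Prime → l ^ 2 ∣ M → ¬ (l : ℤ) ∣ 3 * n - 2 := fun l hl hlM hd => hsq l hl hlM (hd.mul_right _)
  have hsq9 : ∀ l : ℕ, l.Prime → l ^ 2 ∣ M → ¬ (l : ℤ) ∣ 9 * n - 2 := fun l hl hlM hd => hsq l hl hlM (hd.mul_left _)
  have h2p : (2 : ℤ) ∣ 2 ^ (v + 3) := dvd_pow_self _ (by omega)
  obtain ⟨h, hh⟩ := hn
  rcases Nat.even_or_odd h with ⟨h', hh'⟩ | ⟨h', hh'⟩
  · obtain ⟨z2, W2, hM2⟩ := Mpart 3 2 2 n (by norm_num) M hM c3 c2 hsq3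
    obtain ⟨w0, hw0⟩ : ∃ w0 : ℤ, (2 : ℤ) ∣ h' - 2 - w0 ^ 2 := by
      rcases Nat.even_or_odd h' with ⟨r, hr⟩ | ⟨r, hr⟩
      · exact ⟨0, ⟨r - 1, by rw [hr]; push_cast; ring⟩⟩
      · exact ⟨1, ⟨r - 1, by rw [hr]; push_cast; ring⟩⟩
    obtain ⟨r, c, hr⟩ := hens2 3 5 _ (by decide) (by decide) hw0 v
    obtain ⟨z, W, hzW, hz0, hW0, hz1⟩ := glue 3 4 2 n _ 1 _ isCoprime_one_right c2M isCoprime_one_left
      (2 * r + 1) (2 * w0) 0 0 z2 W2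
      ⟨c, by
        rw [hh, hh']
        push_cast
        have : (2 : ℤ) ^ (v + 3) = 4 * 2 ^ (v + 1) := by ring
        rw [this]
        linear_combination 4 * hr⟩
      (one_dvd _)
      (by
        have e : 3 * z2 ^ 2 + 4 * z2 + 2 + W2 ^ 2 - (n : ℤ) = 3 * z2 ^ 2 + 2 * 2 * z2 + 2 + W2 ^ 2 - n := by ring
        rw [e]; exact hM2)
    rw [mul_one] at hzW
    refine ⟨-z - 1, z, W, ?_, ?_, ?_, Or.inl (by ring)⟩
    · have e : (-z - 1) ^ 2 + (-z - 1) ^ 2 + z ^ 2 + W ^ 2 - (n : ℤ) = 3 * z ^ 2 + 4 * z + 2 + W ^ 2 - n := by ring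
      rw [e]; exact hzW
    · have e : W = (W - 2 * w0) + 2 * w0 := by ring
      rw [e]; exact dvd_add (h2p.trans hW0) (dvd_mul_right _ _)
    · intro hd
      have := dvd_sub hd (h2p.trans hz0)
      have e : z - (z - (2 * r + 1)) = 2 * r + 1 := by ring
      rw [e] at this
      omega
  · obtain ⟨z2, W2, hM2⟩ := Mpart 9 (-4) 2 n (by norm_num) M hM c9 c2 hsq9
    obtain ⟨w0, hw0⟩ : ∃ w0 : ℤ, (2 : ℤ) ∣ h' - w0 ^ 2 := by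
      rcases Nat.even_or_odd h' with ⟨r, hr⟩ | ⟨r, hr⟩
      · exact ⟨0, ⟨r, by rw [hr]; push_cast; ring⟩⟩
      · exact ⟨1, ⟨r, by rw [hr]; push_cast; ring⟩⟩
    obtain ⟨r, c, hr⟩ := hens2 9 5 _ (by decide) (by decide) hw0 v
    obtain ⟨z, W, hzW, hz0, hW0, hz1⟩ := glue 9 (-8) 2 n _ 1 _ isCoprime_one_right c2M isCoprime_one_left
      (2 * r + 1) (2 * w0) 0 0 z2 W2
      ⟨c, by
        rw [hh, hh']
        push_cast
        have : (2 : ℤ) ^ (v + 3) = 4 * 2 ^ (v + 1) := by ring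
        rw [this]
        linear_combination 4 * hr⟩
      (one_dvd _)
      (by
        have e : 9 * z2 ^ 2 + (-8) * z2 + 2 + W2 ^ 2 - (n : ℤ) = 9 * z2 ^ 2 + 2 * (-4) * z2 + 2 + W2 ^ 2 - n := by ring
        rw [e]; exact hM2)
    rw [mul_one] at hzW
    refine ⟨2 * z - 1, z, W, ?_, ?_, ?_, Or.inr rfl⟩
    · have e : (2 * z - 1) ^ 2 + (2 * z - 1) ^ 2 + z ^ 2 + W ^ 2 - (n : ℤ) = 9 * z ^ 2 + (-8) * z + 2 + W ^ 2 - n := by ring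
      rw [e]; exact hzW
    · have e : W = (W - 2 * w0) + 2 * w0 := by ring
      rw [e]; exact dvd_add (h2p.trans hW0) (dvd_mul_right _ _)
    · intro hd
      have := dvd_sub hd (h2p.trans hz0)
      have e : z - (z - (2 * r + 1)) = 2 * r + 1 := by ring
      rw [e] at this
      omega

/-- the patterns -/
def PatA (v M : ℕ) (u : Fin 4 → ℤ) : Prop :=
  (2 : ℤ) ∣ u 3 ∧ ¬ (2 : ℤ) ∣ u 2 ∧ (2 : ℤ) ^ (v + 2) * M ∣ u 1 - u 0 ∧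
    ((2 : ℤ) ^ (v + 2) * M ∣ u 0 + u 2 + 1 ∨ (2 : ℤ) ^ (v + 2) * M ∣ u 0 - 2 * u 2 + 1) ∧
      (3 : ℤ) ∣ u 0 - 1 ∧ (3 : ℤ) ∣ u 1 - 1 ∧ ((3 : ℤ) ∣ u 2 ∨ (3 : ℤ) ∣ u 2 - 2)

theorem local3 (n v M : ℕ) (hn : Odd n) (hM : 0 < M) (hM6 : Nat.Coprime 6 M)
    (hsq : ∀ l : ℕ, l.Prime → l ^ 2 ∣ M → ¬ (l : ℤ) ∣ (3 * n - 2) * (9 * n - 2)) :
    ∃ u : Fin 4 → ℤ, GoodG n (2 ^ (v + 2) * 3 * M) u ∧ PatA v M u := by
  obtain ⟨X, Z, W, h1, h2, h3, h4⟩ := base_sol n v M hn hM hM6 hsq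
  have c6 : IsCoprime (6 : ℤ) (M : ℤ) := by exact_mod_cast Nat.isCoprime_iff_coprime.2 hM6
  have c3 : IsCoprime (3 : ℤ) (M : ℤ) := c6.of_isCoprime_of_dvd_left (by norm_num)
  have c23 : IsCoprime ((2 : ℤ) ^ (v + 3)) (3 : ℤ) := IsCoprime.pow_left ⟨-1, 1, by norm_num⟩
  have cc : IsCoprime ((2 : ℤ) ^ (v + 3) * M) (3 : ℤ) := IsCoprime.mul_left c23 c3.symm
  obtain ⟨z3, w3, hzw3, hz3⟩ : ∃ z3 w3 : ℤ, (3 : ℤ) ∣ 1 + 1 + z3 ^ 2 + w3 ^ 2 - n ∧ (z3 = 0 ∨ z3 = 2) := by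
    have : n % 3 = 0 ∨ n % 3 = 1 ∨ n % 3 = 2 := by omega
    rcases this with h | h | h
    · exact ⟨0, 1, by omega, Or.inl rfl⟩
    · exact ⟨2, 1, by omega, Or.inr rfl⟩
    · exact ⟨0, 0, by omega, Or.inl rfl⟩
  obtain ⟨x0, a0, b0⟩ := crt2 _ _ cc X 1
  obtain ⟨x1, a1, b1⟩ := crt2 _ _ cc X 1
  obtain ⟨x2, a2, b2⟩ := crt2 _ _ cc Z z3
  obtain ⟨x3, a3, b3⟩ := crt2 _ _ cc W w3
  have hD : (2 * ((2 ^ (v + 2) * 3 * M : ℕ) : ℤ)) = (2 ^ (v + 3) * M) * 3 := by push_cast; ring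
  have hm : (2 : ℤ) ^ (v + 2) * M ∣ (2 : ℤ) ^ (v + 3) * M := ⟨2, by ring⟩
  have h2m : (2 : ℤ) ∣ (2 : ℤ) ^ (v + 3) * M := ⟨2 ^ (v + 2) * M, by ring⟩
  have hp1 : (2 : ℤ) ^ (v + 2) * M ∣ x1 - x0 := by
    have e : x1 - x0 = (x1 - X) - (x0 - X) := by ring
    rw [e]; exact hm.trans (dvd_sub a1 a0)
  have hp2 : (2 : ℤ) ^ (v + 2) * M ∣ x0 + x2 + 1 ∨ (2 : ℤ) ^ (v + 2) * M ∣ x0 - 2 * x2 + 1 := by
    rcases h4 with h4 | h4
    · left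
      have e : x0 + x2 + 1 = (x0 - X) + (x2 - Z) + (X + Z + 1) := by ring
      rw [e, h4, add_zero]
      exact hm.trans (dvd_add a0 a2)
    · right
      have e : x0 - 2 * x2 + 1 = (x0 - X) - 2 * (x2 - Z) := by rw [h4]; ring
      rw [e]
      exact hm.trans (dvd_sub a0 (a2.mul_left _))
  refine ⟨![x0, x1, x2, x3], ⟨?_, ?_⟩, ?_, ?_, hp1, hp2, b0, b1, ?_⟩
  · rw [Fin.sum_univ_four, hD]
    simp only [Matrix.cons_val_zero, Matrix.cons_val_one, Matrix.cons_val]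
    apply IsCoprime.mul_dvd cc
    · have e : x0 ^ 2 + x1 ^ 2 + x2 ^ 2 + x3 ^ 2 - (n : ℤ) = (x0 - X) * (x0 + X) + (x1 - X) * (x1 + X) +
        (x2 - Z) * (x2 + Z) + (x3 - W) * (x3 + W) + (X ^ 2 + X ^ 2 + Z ^ 2 + W ^ 2 - n) := by ring
      rw [e]
      exact dvd_add (dvd_add (dvd_add (dvd_add (a0.mul_right _) (a1.mul_right _)) (a2.mul_right _)) (a3.mul_right _)) h1
    · have e : x0 ^ 2 + x1 ^ 2 + x2 ^ 2 + x3 ^ 2 - (n : ℤ) = (x0 - 1) * (x0 + 1) + (x1 - 1) * (x1 + 1) +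
        (x2 - z3) * (x2 + z3) + (x3 - w3) * (x3 + w3) + (1 + 1 + z3 ^ 2 + w3 ^ 2 - n) := by ring
      rw [e]
      exact dvd_add (dvd_add (dvd_add (dvd_add (b0.mul_right _) (b1.mul_right _)) (b2.mul_right _)) (b3.mul_right _)) hzw3
  · intro l hl hlD
    by_contra hall
    push Not at hall
    have g0 : (l : ℤ) ∣ x0 := hall 0
    have g2 : (l : ℤ) ∣ x2 := hall 2
    have hnu := (Nat.prime_iff_prime_int.1 hl).not_isUnit
    apply hnu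
    apply isUnit_of_dvd_one
    by_cases hl3 : l = 3
    · rw [hl3] at g0
      have := dvd_sub g0 b0
      have e : x0 - (x0 - 1) = 1 := by ring
      rw [e] at this
      rw [hl3]; exact_mod_cast this
    · have hlm : (l : ℤ) ∣ (2 : ℤ) ^ (v + 2) * M := by
        have e : 2 ^ (v + 2) * 3 * M = 3 * (2 ^ (v + 2) * M) := by ring
        rw [e] at hlD
        rcases (hl.dvd_mul).1 hlD with h | h
        · exact absurd ((Nat.prime_dvd_prime_iff_eq hl Nat.prime_three).1 h) hl3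
        · exact_mod_cast h
      rcases hp2 with h | h
      · have := dvd_sub (hlm.trans h) (dvd_add g0 g2)
        have e : x0 + x2 + 1 - (x0 + x2) = 1 := by ring
        rwa [e] at this
      · have := dvd_sub (hlm.trans h) (dvd_sub g0 (g2.mul_left 2))
        have e : x0 - 2 * x2 + 1 - (x0 - 2 * x2) = 1 := by ring
        rwa [e] at this
  · show (2 : ℤ) ∣ x3
    have e : x3 = (x3 - W) + W := by ring
    rw [e]; exact dvd_add (h2m.trans a3) h2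
  · show ¬ (2 : ℤ) ∣ x2
    intro hd
    apply h3
    have := dvd_sub hd (h2m.trans a2)
    have e : x2 - (x2 - Z) = Z := by ring
    rwa [e] at this
  · show (3 : ℤ) ∣ x2 ∨ (3 : ℤ) ∣ x2 - 2
    rcases hz3 with h | h
    · left; rw [h] at b2; simpa using b2
    · right; rw [h] at b2; exact b2

end Pool.Agent.TH696.FA
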