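import Pool.Agent.TH696.FA.Final2
import Pool.Agent.TH696.FA.Local3

/-!
# All odd `n`: prime factors with `3` not dividing the order of `2`
-/

set_option autoImplicit false
open Finset

namespace Pool.Agent.TH696.FA
open Pool.Agent.W65.FS

lemma seven_pow : (2 : ZMod 7) ^ 3 = 1 := by decide
lemma seven_a : (2 : ZMod 7) ^ 1 + 2 ^ 1 + 2 ^ 0 + 1 ≠ 0 := by decide
lemma seven_b : (2 : ZMod 7) ^ 1 + 2 ^ 1 + 2 ^ 2 + 1 ≠ 0 := by decide

lemma not_seven (x y z : ℕ) (hx1 : x % 3 = 1) (hy1 : y % 3 = 1) (hz1 : z % 3 = 0 ∨ z % 3 = 2) :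
    ¬ 7 ∣ 2 ^ x + 2 ^ y + 2 ^ z + 1 := by
  intro hN
  have : Fact (Nat.Prime 7) := ⟨by norm_num⟩
  have h3 : (2 : ZMod 7) ^ x + 2 ^ y + 2 ^ z + 1 = 0 := by
    have h : ((2 ^ x + 2 ^ y + 2 ^ z + 1 : ℕ) : ZMod 7) = 0 := (ZMod.natCast_eq_zero_iff _ _).2 hN
    push_cast at h
    exact h
  have ex : (2 : ZMod 7) ^ x = 2 ^ 1 := pow_congr_of_dvd 3 seven_pow x 1 (by omega)
  have ey : (2 : ZMod 7) ^ y = 2 ^ 1 := pow_congr_of_dvd 3 seven_pow y 1 (by omega)
  rw [ex, ey] at h3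
  rcases hz1 with hz1 | hz1
  · have ez : (2 : ZMod 7) ^ z = 2 ^ 0 := pow_congr_of_dvd 3 seven_pow z 0 (by omega)
    rw [ez] at h3
    exact seven_a h3
  · have ez : (2 : ZMod 7) ^ z = 2 ^ 2 := pow_congr_of_dvd 3 seven_pow z 2 (by omega)
    rw [ez] at h3
    exact seven_b h3

theorem coprime3 (v M : ℕ) (hM6 : Nat.Coprime 6 M) (u : Fin 4 → ℤ) (hP : PatA v M u)
    (x y z : ℕ) (hx : ((2 ^ (v + 2) * 3 * M : ℕ) : ℤ) ∣ (x : ℤ) - u 0)
    (hy : ((2 ^ (v + 2) * 3 * M : ℕ) : ℤ) ∣ (y : ℤ) - u 1)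
    (hz : ((2 ^ (v + 2) * 3 * M : ℕ) : ℤ) ∣ (z : ℤ) - u 2) :
    Nat.Coprime (2 ^ x + 2 ^ y + 2 ^ z + 1) (14 * (2 ^ (2 ^ v * M) - 1)) := by
  set D : ℕ := 2 ^ (v + 2) * 3 * M with hD
  have h12 : D = 12 * (2 ^ v * M) := by rw [hD]; ring
  obtain ⟨hu3, hodd, hp1, hp2, b0, b1, b2⟩ := hP
  have hM3 : Nat.Coprime 3 M := Nat.Coprime.coprime_dvd_left (by norm_num) hM6
  have d12 : (12 : ℤ) ∣ (D : ℤ) := by rw [h12]; push_cast; exact dvd_mul_right _ _
  have d3 : (3 : ℤ) ∣ (D : ℤ) := dvd_trans (by norm_num) d12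
  have d2 : (2 : ℤ) ∣ (D : ℤ) := dvd_trans (by norm_num) d12
  have dm : (2 : ℤ) ^ (v + 2) * M ∣ (D : ℤ) := ⟨3, by rw [hD]; push_cast; ring⟩
  have dKm : ((2 ^ v * M : ℕ) : ℤ) ∣ (2 : ℤ) ^ (v + 2) * M := ⟨4, by push_cast; ring⟩
  have dK := dKm.trans dm
  have x3 := d3.trans hx
  have y3 := d3.trans hy
  have z3 := d3.trans hz
  have z2 := d2.trans hz
  have hx1 : x % 3 = 1 := by omega
  have hy1 : y % 3 = 1 := by omega
  have hz1 : z % 3 = 0 ∨ z % 3 = 2 := by omega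
  have hzodd : z % 2 = 1 := by omega
  apply Nat.coprime_of_dvd
  intro q hq hN hK
  have hq2 : q ≠ 2 := by
    rintro rfl
    obtain ⟨x', rfl⟩ := Nat.exists_eq_add_of_le (show 1 ≤ x by omega)
    obtain ⟨y', rfl⟩ := Nat.exists_eq_add_of_le (show 1 ≤ y by omega)
    obtain ⟨z', rfl⟩ := Nat.exists_eq_add_of_le (show 1 ≤ z by omega)
    rw [pow_add, pow_add, pow_add] at hN
    omega
  have : Fact q.Prime := ⟨hq⟩
  have h3 : (2 : ZMod q) ^ x + 2 ^ y + 2 ^ z + 1 = 0 := by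
    have h : ((2 ^ x + 2 ^ y + 2 ^ z + 1 : ℕ) : ZMod q) = 0 := (ZMod.natCast_eq_zero_iff _ _).2 hN
    push_cast at h
    exact h
  have h20 : (2 : ZMod q) ≠ 0 := by
    intro h
    have h3 : ((2 : ℕ) : ZMod q) = 0 := by exact_mod_cast h
    rw [ZMod.natCast_eq_zero_iff] at h3
    exact hq2 ((Nat.prime_dvd_prime_iff_eq hq Nat.prime_two).1 h3)
  have hq7 : q ≠ 7 := by
    rintro rfl
    exact not_seven x y z hx1 hy1 hz1 hN
  have hK' : q ∣ 2 ^ (2 ^ v * M) - 1 := by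
    rcases hq.dvd_mul.1 hK with h | h
    · exfalso
      have e : 14 = 2 * 7 := by norm_num
      rw [e] at h
      rcases hq.dvd_mul.1 h with h | h
      · exact hq2 ((Nat.prime_dvd_prime_iff_eq hq Nat.prime_two).1 h)
      · exact hq7 ((Nat.prime_dvd_prime_iff_eq hq (by norm_num)).1 h)
    · exact h
  have h1 : (2 : ZMod q) ^ (2 ^ v * M) = 1 := by
    have h : ((2 ^ (2 ^ v * M) - 1 : ℕ) : ZMod q) = 0 := (ZMod.natCast_eq_zero_iff _ _).2 hK'
    rw [Nat.cast_sub Nat.one_le_two_pow] at h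
    push_cast at h
    linear_combination h
  have hyx : (2 : ZMod q) ^ y = 2 ^ x := by
    apply pow_congr_of_dvd _ h1
    have e : (y : ℤ) - x = (y - u 1) - (x - u 0) + (u 1 - u 0) := by ring
    rw [e]; exact dvd_add (dK.trans (dvd_sub hy hx)) (dKm.trans hp1)
  rw [hyx] at h3
  have cyc : (2 : ZMod q) ^ z * 2 ^ z + 2 ^ z + 1 = 0 → False := by
    intro hcyc
    have ha3 : (2 : ZMod q) ^ (3 * z) = 1 := by
      have e : (2 : ZMod q) ^ (3 * z) = (2 ^ z) ^ 3 := by rw [← pow_mul, mul_comm]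
      rw [e]
      linear_combination ((2 : ZMod q) ^ z - 1) * hcyc
    have ho1 := orderOf_dvd_of_pow_eq_one h1
    have ho2 := orderOf_dvd_of_pow_eq_one ha3
    set o := orderOf (2 : ZMod q) with ho
    have c3 : Nat.Coprime o 3 := by
      apply Nat.Coprime.coprime_dvd_left ho1
      apply Nat.Coprime.mul_left
      · exact Nat.Coprime.pow_left _ (by norm_num)
      · exact hM3.symm
    have hoz : o ∣ z := c3.dvd_of_dvd_mul_left ho2
    have ha1 : (2 : ZMod q) ^ z = 1 := orderOf_dvd_iff_pow_eq_one.1 hoz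
    rw [ha1] at hcyc
    have hm1 : (2 : ZMod q) = -1 := by linear_combination hcyc
    have hzo : Odd z := Nat.odd_iff.2 hzodd
    have h5 : (2 : ZMod q) ^ z = -1 := by
      rw [hm1]; exact hzo.neg_one_pow
    rw [ha1] at h5
    apply h20
    linear_combination h5
  apply cyc
  rcases hp2 with h2 | h2
  · have e1 : (2 : ZMod q) ^ (x + z + 1) = 2 ^ 0 := by
      apply pow_congr_of_dvd _ h1
      have e : ((x + z + 1 : ℕ) : ℤ) - ((0 : ℕ) : ℤ) = (x - u 0) + (z - u 2) + (u 0 + u 2 + 1) := by push_cast; ring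
      rw [e]
      exact dvd_add (dK.trans (dvd_add hx hz)) (dKm.trans h2)
    rw [pow_add, pow_add, pow_zero, pow_one] at e1
    linear_combination (2 : ZMod q) ^ z * h3 - e1
  · have e1 : (2 : ZMod q) ^ (x + 1) = 2 ^ (z + z) := by
      apply pow_congr_of_dvd _ h1
      have e : ((x + 1 : ℕ) : ℤ) - ((z + z : ℕ) : ℤ) = (x - u 0) - 2 * (z - u 2) + (u 0 - 2 * u 2 + 1) := by
        push_cast; ring
      rw [e]
      exact dvd_add (dK.trans (dvd_sub hx (hz.mul_left _))) (dKm.trans h2)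
    rw [pow_add, pow_add, pow_one] at e1
    linear_combination h3 - e1

theorem main_count3 (ε : ℝ) (hε : 0 < ε) : ∃ δ : ℝ, 0 < δ ∧ ∃ n0 : ℕ, ∀ (n K : ℕ), n0 ≤ n → Odd n →
    ¬ 3 ∣ K → 0 < K → (K : ℝ) ≤ (n : ℝ) ^ δ →
    (∀ l : ℕ, l.Prime → 5 ≤ l → l ^ 2 ∣ K → ¬ (l : ℤ) ∣ (3 * n - 2) * (9 * n - 2)) →
    ∃ S : Finset (ℕ × ℕ × ℕ × ℕ), (n : ℝ) ^ (1 - ε) ≤ (S.card : ℝ) ∧
      ∀ x y z w : ℕ, (x, y, z, w) ∈ S → n = x ^ 2 + y ^ 2 + z ^ 2 + 4 * w ^ 2 ∧
        Nat.Coprime (2 ^ x + 2 ^ y + 2 ^ z + 1) (14 * (2 ^ K - 1)) := by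
  classical
  obtain ⟨δ, hδ, n1, h⟩ := orth_count ε hε
  obtain ⟨n2, hn2⟩ := large_rp 12 (δ / 2) (by positivity)
  refine ⟨δ / 2, by positivity, n1 + n2, ?_⟩
  intro n K hn hno hK3 hK hKn hsq
  obtain ⟨v, M, hL, hKM⟩ := Nat.exists_eq_two_pow_mul_odd hK.ne'
  have hM0 : 0 < M := hL.pos
  have hM3 : ¬ 3 ∣ M := by
    intro h3
    apply hK3
    rw [hKM]; exact h3.mul_left _
  have hM2 : ¬ 2 ∣ M := by
    intro h2
    exact (Nat.not_even_iff_odd.2 hL) (even_iff_two_dvd.2 h2)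
  have hM6 : Nat.Coprime 6 M := by
    have e : (6 : ℕ) = 2 * 3 := by norm_num
    rw [e]
    exact Nat.Coprime.mul_left ((Nat.Prime.coprime_iff_not_dvd Nat.prime_two).2 hM2)
      ((Nat.Prime.coprime_iff_not_dvd Nat.prime_three).2 hM3)
  have hsqM : ∀ l : ℕ, l.Prime → l ^ 2 ∣ M → ¬ (l : ℤ) ∣ (3 * n - 2) * (9 * n - 2) := by
    intro l hl hlM
    have hlM' : l ∣ M := (dvd_pow_self l two_ne_zero).trans hlM
    apply hsq l hl
    · by_contra hlt
      push Not at hlt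
      have h2 := hl.two_le
      have h5 : l = 2 ∨ l = 3 ∨ l = 4 := by omega
      rcases h5 with rfl | rfl | rfl
      · exact hM2 hlM'
      · exact hM3 hlM'
      · exact absurd hl (by norm_num)
    · rw [hKM]; exact hlM.mul_left _
  obtain ⟨u, hu, hP⟩ := local3 n v M hno hM0 hM6 hsqM
  have hDK : 2 ^ (v + 2) * 3 * M = 12 * K := by rw [hKM]; ring
  have hn0 : (0 : ℝ) < n := by exact_mod_cast hno.pos
  have hDn : ((2 ^ (v + 2) * 3 * M : ℕ) : ℝ) ≤ (n : ℝ) ^ δ := by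
    rw [hDK]
    push_cast
    calc 12 * (K : ℝ) ≤ (n : ℝ) ^ (δ / 2) * (n : ℝ) ^ (δ / 2) := by
          have := hn2 n (by omega)
          gcongr
      _ = (n : ℝ) ^ δ := by rw [← Real.rpow_add hn0]; congr 1; ring
  have hD0 : 0 < 2 ^ (v + 2) * 3 * M := by rw [hDK]; omega
  have h4D : 4 ∣ 2 ^ (v + 2) * 3 * M := by rw [hDK]; exact Dvd.dvd.mul_right (by norm_num) _
  have h2D : (2 : ℤ) ∣ ((2 ^ (v + 2) * 3 * M : ℕ) : ℤ) := by
    rw [hDK]; push_cast; exact Dvd.dvd.mul_right (by norm_num) _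
  have hcount := h n (2 ^ (v + 2) * 3 * M) (by omega) hno hD0 h4D hDn u hu
  refine ⟨(orth n (2 ^ (v + 2) * 3 * M) u).image
    (fun X => ((X 0).toNat, (X 1).toNat, (X 2).toNat, (X 3).toNat / 2)), ?_, ?_⟩
  · rw [Finset.card_image_of_injOn]
    · exact hcount
    · intro X hX Y hY hXY
      rw [Finset.mem_coe, mem_orth] at hX hY
      simp only [Prod.mk.injEq] at hXY
      obtain ⟨e0, e1, e2, e3⟩ := hXY
      have g := hX.2
      have g' := hY.2
      have k3 := h2D.trans (hX.1.2 3)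
      have k3' := h2D.trans (hY.1.2 3)
      have hu3 := hP.1
      funext i
      fin_cases i
      · have a1 := g 0; have a2 := g' 0
        show X 0 = Y 0
        omega
      · have a1 := g 1; have a2 := g' 1
        show X 1 = Y 1
        omega
      · have a1 := g 2; have a2 := g' 2
        show X 2 = Y 2
        omega
      · have a1 := g 3; have a2 := g' 3
        show X 3 = Y 3
        omega
  · intro x y z w' hxyzw
    rw [Finset.mem_image] at hxyzw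
    obtain ⟨X, hX, hXe⟩ := hxyzw
    rw [mem_orth] at hX
    obtain ⟨⟨hsum, hcong⟩, hpos⟩ := hX
    simp only [Prod.mk.injEq] at hXe
    obtain ⟨e0, e1, e2, e3⟩ := hXe
    have k3 := h2D.trans (hcong 3)
    have hu3 := hP.1
    have x0 : X 0 = x := by have := hpos 0; omega
    have x1 : X 1 = y := by have := hpos 1; omega
    have x2 : X 2 = z := by have := hpos 2; omega
    have x3 : X 3 = 2 * w' := by have := hpos 3; omega
    rw [Fin.sum_univ_four, x0, x1, x2, x3] at hsum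
    have c0 := hcong 0
    have c1 := hcong 1
    have c2 := hcong 2
    rw [x0] at c0
    rw [x1] at c1
    rw [x2] at c2
    refine ⟨?_, ?_⟩
    · have : (n : ℤ) = ((x ^ 2 + y ^ 2 + z ^ 2 + 4 * w' ^ 2 : ℕ) : ℤ) := by
        push_cast
        linear_combination -hsum
      exact_mod_cast this
    · rw [hKM]
      exact coprime3 v M hM6 u hP x y z c0 c1 c2

/-- a number whose prime factors with small order of `2` are controlled -/
noncomputable def KK (B : ℕ → Prop) [DecidablePred B] (Y : ℕ) : ℕ :=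
  ((Finset.Icc 1 Y).filter B).lcm id

lemma KK_dvd (B : ℕ → Prop) [DecidablePred B] (Y : ℕ) : KK B Y ∣ Nat.lcmUpto Y := by
  unfold KK Nat.lcmUpto
  apply Finset.lcm_dvd
  intro b hb
  exact Finset.dvd_lcm (f := id) (Finset.mem_filter.1 hb).1

lemma prime_pow_dvd_lcm (l k : ℕ) (hl : l.Prime) (s : Finset ℕ) (hs : ∀ b ∈ s, b ≠ 0)
    (h : ∀ b ∈ s, ¬ l ^ k ∣ b) (hk : 0 < k) : ¬ l ^ k ∣ s.lcm id := by
  classical
  induction s using Finset.induction_on with
  | empty =>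
    simp only [Finset.lcm_empty, Nat.dvd_one]
    intro h1
    have := Nat.one_lt_pow hk.ne' hl.one_lt
    omega
  | insert a s ha ih =>
    rw [Finset.lcm_insert]
    intro hd
    have h1 := ih (fun b hb => hs b (Finset.mem_insert_of_mem hb)) (fun b hb => h b (Finset.mem_insert_of_mem hb))
    have h2 := h a (Finset.mem_insert_self _ _)
    have ha0 : a ≠ 0 := hs a (Finset.mem_insert_self _ _)
    have hs0 : s.lcm id ≠ 0 := by
      rw [Ne, Finset.lcm_eq_zero_iff]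
      rintro ⟨b, hb, hb0⟩
      exact hs b (Finset.mem_insert_of_mem hb) hb0
    have hd' : l ^ k ∣ Nat.lcm a (s.lcm id) := hd
    rw [hl.pow_dvd_iff_le_factorization (Nat.lcm_ne_zero ha0 hs0), Nat.factorization_lcm ha0 hs0] at hd'
    rw [hl.pow_dvd_iff_le_factorization hs0] at h1
    rw [hl.pow_dvd_iff_le_factorization ha0] at h2
    rw [Finsupp.sup_apply] at hd'
    rcases le_sup_iff.1 hd' with h3 | h3
    · exact h2 h3
    · exact h1 h3

lemma KK_pos (B : ℕ → Prop) [DecidablePred B] (Y : ℕ) : 0 < KK B Y :=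
  Nat.pos_of_dvd_of_pos (KK_dvd B Y) (Nat.lcmUpto_pos Y)

lemma KK_prime (B : ℕ → Prop) [DecidablePred B] (Y N : ℕ) (hN : Nat.Coprime N (2 * (2 ^ KK B Y - 1)))
    (q : ℕ) (hq : q.Prime) (hqN : q ∣ N) (hqY : q ≤ Y + 1) : q ≠ 2 ∧ ¬ B (orderOf (2 : ZMod q)) := by
  have : Fact q.Prime := ⟨hq⟩
  have hcop : Nat.Coprime q (2 * (2 ^ KK B Y - 1)) := Nat.Coprime.coprime_dvd_left hqN hN
  rw [Nat.Prime.coprime_iff_not_dvd hq] at hcop
  have hq2 : q ≠ 2 := by
    rintro rfl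
    exact hcop (dvd_mul_right _ _)
  refine ⟨hq2, fun hB => hcop (Dvd.dvd.mul_left ?_ _)⟩
  have h20 : (2 : ZMod q) ≠ 0 := by
    intro h
    have h3 : ((2 : ℕ) : ZMod q) = 0 := by exact_mod_cast h
    rw [ZMod.natCast_eq_zero_iff] at h3
    exact hq2 ((Nat.prime_dvd_prime_iff_eq hq Nat.prime_two).1 h3)
  have hdvd : orderOf (2 : ZMod q) ∣ q - 1 := ZMod.orderOf_dvd_card_sub_one h20
  have hpos : 0 < orderOf (2 : ZMod q) := by
    rw [Nat.pos_iff_ne_zero]
    intro h0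
    rw [h0, zero_dvd_iff] at hdvd
    have := hq.two_le
    omega
  have hle : orderOf (2 : ZMod q) ≤ Y := (Nat.le_of_dvd (by have := hq.two_le; omega) hdvd).trans (by omega)
  have hK : orderOf (2 : ZMod q) ∣ KK B Y := by
    unfold KK
    exact Finset.dvd_lcm (f := id) (Finset.mem_filter.2 ⟨Finset.mem_Icc.2 ⟨hpos, hle⟩, hB⟩)
  have h1 : (2 : ZMod q) ^ KK B Y = 1 := orderOf_dvd_iff_pow_eq_one.1 hK
  rw [← ZMod.natCast_eq_zero_iff, Nat.cast_sub Nat.one_le_two_pow]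
  push_cast
  rw [h1]; ring

/-- the exceptional primes `l` -/
def Exc (n o : ℕ) : Prop := ∃ l : ℕ, l.Prime ∧ 5 ≤ l ∧ l ^ 2 ∣ o ∧ (l : ℤ) ∣ (3 * n - 2) * (9 * n - 2)

theorem main_log2 (ε : ℝ) (hε : 0 < ε) : ∃ c : ℝ, 0 < c ∧ ∀ n : ℕ, Odd n →
    ∃ S : Finset (ℕ × ℕ × ℕ × ℕ), c * (n : ℝ) ^ (1 - ε) ≤ (S.card : ℝ) ∧
      ∀ x y z w : ℕ, (x, y, z, w) ∈ S → n = x ^ 2 + y ^ 2 + z ^ 2 + 4 * w ^ 2 ∧
        ∀ q : ℕ, q.Prime → q ∣ 2 ^ x + 2 ^ y + 2 ^ z + 1 → (q : ℝ) ≤ c * Real.log n →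
          q ≠ 2 ∧ (Exc n (orderOf (2 : ZMod q)) ∨
            (¬ 3 ∣ n ∧ n % 32 ≠ 13 ∧ q ≠ 7 ∧ 3 ∣ orderOf (2 : ZMod q))) := by
  classical
  obtain ⟨δ1, hδ1, n2, h2⟩ := main_count2 ε hε
  obtain ⟨δ2, hδ2, n3, h3⟩ := main_count3 ε hε
  set δ := min δ1 δ2 with hδd
  have hδ : 0 < δ := lt_min hδ1 hδ2
  set n1 : ℕ := n2 + n3 + 1 with hn1
  set c : ℝ := min (min 1 (δ / 6)) (1 / (n1 + 1)) with hc
  have hc0 : 0 < c := lt_min (lt_min one_pos (by positivity)) (by positivity)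
  have hc1 : c ≤ 1 := (min_le_left _ _).trans (min_le_left _ _)
  have hcδ : c ≤ δ / 6 := (min_le_left _ _).trans (min_le_right _ _)
  have hcn : c ≤ 1 / (n1 + 1) := min_le_right _ _
  refine ⟨c, hc0, ?_⟩
  intro n hno
  have hnr : (1 : ℝ) ≤ n := by exact_mod_cast hno.pos
  have hn0 : (0 : ℝ) < n := by linarith
  have hlog0 : 0 ≤ Real.log n := Real.log_nonneg hnr
  by_cases hbig : n1 ≤ n
  · set Y : ℕ := ⌊c * Real.log n⌋₊ with hY
    have hYle : (Y : ℝ) ≤ c * Real.log n := Nat.floor_le (by positivity)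
    have hYlt : c * Real.log n < Y + 1 := Nat.lt_floor_add_one _
    have hlcm : ((Nat.lcmUpto Y : ℕ) : ℝ) ≤ (n : ℝ) ^ δ := by
      have hK0r : (0 : ℝ) < (Nat.lcmUpto Y : ℕ) := by exact_mod_cast Nat.lcmUpto_pos Y
      rw [← Real.log_le_log_iff hK0r (by positivity), Real.log_rpow hn0, ← Chebyshev.psi_eq_log_lcmUpto]
      have h1 := Chebyshev.psi_le_const_mul_self (x := (Y : ℝ)) (by positivity)
      have h4 : Real.log 4 ≤ 2 := by
        have : Real.log 4 = 2 * Real.log 2 := by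
          rw [show (4 : ℝ) = 2 ^ 2 by norm_num, Real.log_pow]; norm_num
        rw [this]
        have := Real.log_two_lt_d9
        linarith
      calc Chebyshev.psi (Y : ℝ) ≤ (Real.log 4 + 4) * Y := h1
        _ ≤ 6 * (c * Real.log n) := by
          apply mul_le_mul (by linarith) hYle (by positivity) (by norm_num)
        _ ≤ 6 * (δ / 6 * Real.log n) := by gcongr
        _ = δ * Real.log n := by ring
    have hKn : ∀ (B : ℕ → Prop) [DecidablePred B], ((KK B Y : ℕ) : ℝ) ≤ (n : ℝ) ^ δ := by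
      intro B _
      have : KK B Y ≤ Nat.lcmUpto Y := Nat.le_of_dvd (Nat.lcmUpto_pos Y) (KK_dvd B Y)
      have h' : ((KK B Y : ℕ) : ℝ) ≤ ((Nat.lcmUpto Y : ℕ) : ℝ) := by exact_mod_cast this
      exact h'.trans hlcm
    have hsq : ∀ (B : ℕ → Prop) [DecidablePred B], (∀ b, B b → ¬ Exc n b) →
        ∀ l : ℕ, l.Prime → 5 ≤ l → l ^ 2 ∣ KK B Y → ¬ (l : ℤ) ∣ (3 * n - 2) * (9 * n - 2) := by
      intro B _ hB l hl hl5 hlK hd
      refine prime_pow_dvd_lcm l 2 hl ((Finset.Icc 1 Y).filter B) ?_ ?_ (by norm_num) hlK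
      · intro b hb
        have := (Finset.mem_Icc.1 (Finset.mem_filter.1 hb).1).1
        omega
      · intro b hb hlb
        exact hB b (Finset.mem_filter.1 hb).2 ⟨l, hl, hl5, hlb, hd⟩
    by_cases hres : 3 ∣ n ∨ n % 32 = 13
    · obtain ⟨S, hS1, hS2⟩ := h2 n (KK (fun b => ¬ Exc n b) Y) (by omega) hno hres (KK_pos _ _)
        ((hKn _).trans (Real.rpow_le_rpow_of_exponent_le hnr (min_le_left _ _))) (hsq _ (fun b hb => hb))
      refine ⟨S, ?_, ?_⟩
      · calc c * (n : ℝ) ^ (1 - ε) ≤ 1 * (n : ℝ) ^ (1 - ε) := by gcongr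
          _ ≤ S.card := by rw [one_mul]; exact hS1
      · intro x y z w hxyzw
        obtain ⟨g1, g2⟩ := hS2 x y z w hxyzw
        refine ⟨g1, fun q hq hqN hqc => ?_⟩
        have hqY : q ≤ Y + 1 := by
          have : (q : ℝ) < ((Y + 1 : ℕ) : ℝ) := by push_cast; linarith
          exact_mod_cast this.le
        obtain ⟨k1, k2⟩ := KK_prime _ Y _ g2 q hq hqN hqY
        exact ⟨k1, Or.inl (not_not.1 k2)⟩
    · obtain ⟨S, hS1, hS2⟩ := h3 n (KK (fun b => ¬ Exc n b ∧ ¬ 3 ∣ b) Y) (by omega) hno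
        (by
          have := prime_pow_dvd_lcm 3 1 Nat.prime_three ((Finset.Icc 1 Y).filter (fun b => ¬ Exc n b ∧ ¬ 3 ∣ b)) ?_ ?_
            (by norm_num)
          · rw [pow_one] at this
            exact this
          · intro b hb
            have := (Finset.mem_Icc.1 (Finset.mem_filter.1 hb).1).1
            omega
          · intro b hb
            rw [pow_one]
            exact (Finset.mem_filter.1 hb).2.2)
        (KK_pos _ _)
        ((hKn _).trans (Real.rpow_le_rpow_of_exponent_le hnr (min_le_right _ _))) (hsq _ (fun b hb => hb.1))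
      refine ⟨S, ?_, ?_⟩
      · calc c * (n : ℝ) ^ (1 - ε) ≤ 1 * (n : ℝ) ^ (1 - ε) := by gcongr
          _ ≤ S.card := by rw [one_mul]; exact hS1
      · intro x y z w hxyzw
        obtain ⟨g1, g2⟩ := hS2 x y z w hxyzw
        refine ⟨g1, fun q hq hqN hqc => ?_⟩
        have hqY : q ≤ Y + 1 := by
          have : (q : ℝ) < ((Y + 1 : ℕ) : ℝ) := by push_cast; linarith
          exact_mod_cast this.le
        have g2' : Nat.Coprime (2 ^ x + 2 ^ y + 2 ^ z + 1) (2 * (2 ^ (KK (fun b => ¬ Exc n b ∧ ¬ 3 ∣ b) Y) - 1)) :=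
          Nat.Coprime.coprime_dvd_right (Nat.mul_dvd_mul_right (by norm_num) _) g2
        obtain ⟨k1, k2⟩ := KK_prime _ Y _ g2' q hq hqN hqY
        have k3 : q ≠ 7 := by
          rintro rfl
          have g3 : Nat.Coprime (2 ^ x + 2 ^ y + 2 ^ z + 1) 7 :=
            Nat.Coprime.coprime_dvd_right (Dvd.dvd.mul_right (by norm_num) _) g2
          have := Nat.dvd_gcd hqN (dvd_refl 7)
          rw [g3] at this
          norm_num at this
        refine ⟨k1, ?_⟩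
        by_cases hE : Exc n (orderOf (2 : ZMod q))
        · exact Or.inl hE
        · right
          refine ⟨fun h => hres (Or.inl h), fun h => hres (Or.inr h), k3, ?_⟩
          by_contra h3o
          exact k2 ⟨hE, h3o⟩
  · push Not at hbig
    have hnn1 : (n : ℝ) ≤ n1 := by exact_mod_cast hbig.le
    have hcn1 : c * n ≤ 1 := by
      calc c * n ≤ 1 / (n1 + 1) * (n1 + 1) := by
            apply mul_le_mul hcn (by linarith) hn0.le (by positivity)
        _ = 1 := by field_simp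
    obtain ⟨a, b, d, e, habde⟩ : ∃ a b d e : ℕ, n = a ^ 2 + b ^ 2 + d ^ 2 + 4 * e ^ 2 := by
      obtain ⟨a, b, d, e, h⟩ := Nat.sum_four_squares n
      have key : a % 2 = 0 ∨ b % 2 = 0 ∨ d % 2 = 0 ∨ e % 2 = 0 := by
        by_contra hno'
        push Not at hno'
        have sq : ∀ t : ℕ, t % 2 ≠ 0 → t ^ 2 % 2 = 1 := by
          intro t ht
          have : t % 2 = 1 := by omega
          rw [Nat.pow_mod, this]
        have s1 := sq a hno'.1
        have s2 := sq b hno'.2.1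
        have s3 := sq d hno'.2.2.1
        have s4 := sq e hno'.2.2.2
        have := Nat.odd_iff.1 hno
        omega
      have dbl : ∀ t : ℕ, t % 2 = 0 → t ^ 2 = 4 * (t / 2) ^ 2 := by
        intro t ht
        obtain ⟨s, rfl⟩ := Nat.dvd_of_mod_eq_zero ht
        rw [Nat.mul_div_cancel_left _ (by norm_num)]; ring
      rcases key with k | k | k | k
      · exact ⟨b, d, e, a / 2, by rw [← dbl a k]; omega⟩
      · exact ⟨a, d, e, b / 2, by rw [← dbl b k]; omega⟩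
      · exact ⟨a, b, e, d / 2, by rw [← dbl d k]; omega⟩
      · exact ⟨a, b, d, e / 2, by rw [← dbl e k]; omega⟩
    refine ⟨{(a, b, d, e)}, ?_, ?_⟩
    · rw [Finset.card_singleton, Nat.cast_one]
      have h1 : (n : ℝ) ^ (1 - ε) ≤ (n : ℝ) ^ (1 : ℝ) := Real.rpow_le_rpow_of_exponent_le hnr (by linarith)
      rw [Real.rpow_one] at h1
      calc c * (n : ℝ) ^ (1 - ε) ≤ c * n := by gcongr
        _ ≤ 1 := hcn1
    · intro x y z w hxyzw
      rw [Finset.mem_singleton] at hxyzw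
      simp only [Prod.mk.injEq] at hxyzw
      obtain ⟨rfl, rfl, rfl, rfl⟩ := hxyzw
      refine ⟨habde, fun q hq _ hqc => ?_⟩
      exfalso
      have h1 : Real.log n ≤ n := (Real.log_le_sub_one_of_pos hn0).trans (by linarith)
      have h2 : (2 : ℝ) ≤ q := by exact_mod_cast hq.two_le
      have h3 : c * Real.log n ≤ c * n := by gcongr
      linarith

end Pool.Agent.TH696.FA
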