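import Pool.Agent.TH696.FA.Local

/-!
# Elementary Hensel lemmas
-/

set_option autoImplicit false
open Finset

namespace Pool.Agent.TH696.FA

lemma hens2 (a b e : ℤ) (ha : Odd a) (hb : Odd b) (he : 2 ∣ e) : ∀ m : ℕ, ∃ r : ℤ, (2 : ℤ) ^ (m + 1) ∣ a * r ^ 2 + b * r - e
  | 0 => ⟨0, by simpa using he.neg_right⟩
  | m + 1 => by
    obtain ⟨r, t, ht⟩ := hens2 a b e ha hb he m
    obtain ⟨b', hb'⟩ := hb
    rcases Int.even_or_odd t with ⟨k, hk⟩ | ⟨k, hk⟩
    · refine ⟨r, k, ?_⟩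
      rw [ht, hk, pow_succ]
      ring
    · refine ⟨r + 2 ^ (m + 1), k + b' + 1 + a * r + a * 2 ^ m, ?_⟩
      have e1 : a * (r + 2 ^ (m + 1)) ^ 2 + b * (r + 2 ^ (m + 1)) - e =
        (a * r ^ 2 + b * r - e) + 2 ^ (m + 1) * (2 * a * r) + a * (2 ^ (m + 1)) ^ 2 + b * 2 ^ (m + 1) := by ring
      rw [e1, ht, hk, hb']
      ring

lemma sqrt2 (t : ℤ) (ht : 8 ∣ t - 1) : ∀ m : ℕ, ∃ w : ℤ, (2 : ℤ) ^ (m + 3) ∣ w ^ 2 - t ∧ Odd w
  | 0 => ⟨1, by
      have : (2 : ℤ) ^ (0 + 3) = 8 := by norm_num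
      rw [this]
      have := ht.neg_right
      rw [neg_sub] at this
      simpa using this, odd_one⟩
  | m + 1 => by
    obtain ⟨w, ⟨c, hc⟩, hw⟩ := sqrt2 t ht m
    rcases Int.even_or_odd c with ⟨k, hk⟩ | ⟨k, hk⟩
    · refine ⟨w, ⟨k, ?_⟩, hw⟩
      rw [hc, hk, pow_succ _ (m + 3)]
      ring
    · obtain ⟨w', hw'⟩ := hw
      refine ⟨w + 2 ^ (m + 2), ⟨k + w' + 1 + 2 ^ m, ?_⟩, ?_⟩
      · have e1 : (w + 2 ^ (m + 2)) ^ 2 - t = (w ^ 2 - t) + 2 ^ (m + 3) * w + (2 ^ (m + 2)) ^ 2 := by ring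
        rw [e1, hc, hk, hw']
        ring
      · refine Odd.add_even ⟨w', hw'⟩ ?_
        exact ⟨2 ^ (m + 1), by ring⟩

lemma sqrt3 (t : ℤ) (ht : 3 ∣ t - 1) : ∀ m : ℕ, ∃ w : ℤ, (3 : ℤ) ^ m ∣ w ^ 2 - t ∧ 3 ∣ w - 1
  | 0 => ⟨1, by simp, by simp⟩
  | m + 1 => by
    obtain ⟨w, ⟨c, hc⟩, ⟨w', hw'⟩⟩ := sqrt3 t ht m
    rcases Nat.eq_zero_or_pos m with hm | hm
    · subst hm
      refine ⟨1, ?_, by simp⟩
      have := ht.neg_right
      rw [neg_sub] at this
      simpa using this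
    · obtain ⟨j, rfl⟩ := Nat.exists_eq_add_of_le hm
      -- w ↦ w + 3^m c : change 2 w 3^m c ≡ 2 3^m c, total 3^m c (1 + 2) ≡ 0
      refine ⟨w + 3 ^ (1 + j) * c, ⟨c + 2 * w' * c + 3 ^ j * c ^ 2, ?_⟩, ?_⟩
      · have e1 : (w + 3 ^ (1 + j) * c) ^ 2 - t = (w ^ 2 - t) + 3 ^ (1 + j) * (2 * w * c) + (3 ^ (1 + j) * c) ^ 2 := by ring
        have hw2 : w = 3 * w' + 1 := by linear_combination hw'
        rw [e1, hc, hw2]
        ring
      · have e2 : w + 3 ^ (1 + j) * c - 1 = (w - 1) + 3 * (3 ^ j * c) := by ring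
        rw [e2]
        exact dvd_add ⟨w', hw'⟩ (dvd_mul_right _ _)

lemma lin3 (e : ℤ) : ∀ m : ℕ, ∃ x : ℤ, (3 : ℤ) ^ m ∣ 3 * x ^ 2 + 2 * x - e
  | 0 => ⟨0, by simp⟩
  | m + 1 => by
    obtain ⟨x, c, hc⟩ := lin3 e m
    -- x ↦ x + 3^m c
    refine ⟨x + 3 ^ m * c, c + 2 * x * c + 3 ^ m * c * (x * 0) + c ^ 2 * 3 ^ m + 0, ?_⟩
    have e1 : 3 * (x + 3 ^ m * c) ^ 2 + 2 * (x + 3 ^ m * c) - e =
      (3 * x ^ 2 + 2 * x - e) + 3 ^ m * (6 * x * c) + 3 * (3 ^ m * c) ^ 2 + 2 * (3 ^ m * c) := by ring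
    rw [e1, hc]
    ring

/-- a binary form `X² + d W²` represents all units to moduli coprime to `2 d` -/
lemma binary (d : ℤ) : ∀ m : ℕ, 0 < m → IsCoprime (2 * d) (m : ℤ) → ∀ t : ℤ, IsCoprime t (m : ℤ) →
    ∃ X W : ℤ, (m : ℤ) ∣ X ^ 2 + d * W ^ 2 - t := by
  intro m
  induction m using Nat.strong_induction_on with
  | _ m ih =>
    intro hm hd t ht
    by_cases h1 : m = 1
    · subst h1
      exact ⟨0, 0, by simp⟩
    · set l := m.minFac with hl
      have hlp : l.Prime := Nat.minFac_prime h1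
      have hlpZ : Prime (l : ℤ) := Nat.prime_iff_prime_int.1 hlp
      obtain ⟨m', hm'⟩ : l ∣ m := Nat.minFac_dvd m
      have hm'0 : 0 < m' := by
        rcases Nat.eq_zero_or_pos m' with h | h
        · rw [h] at hm'; omega
        · exact h
      have hm'lt : m' < m := by
        rw [hm']
        exact (Nat.lt_mul_iff_one_lt_left hm'0).2 hlp.one_lt
      have hmZ : (m : ℤ) = l * m' := by exact_mod_cast hm'
      have hdm' : IsCoprime (2 * d) (m' : ℤ) := by rw [hmZ] at hd; exact hd.of_mul_right_right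
      have hdl : IsCoprime (2 * d) (l : ℤ) := by rw [hmZ] at hd; exact hd.of_mul_right_left
      have htm' : IsCoprime t (m' : ℤ) := by rw [hmZ] at ht; exact ht.of_mul_right_right
      have htl : IsCoprime t (l : ℤ) := by rw [hmZ] at ht; exact ht.of_mul_right_left
      obtain ⟨X, W, F, hF⟩ := ih m' hm'lt hm'0 hdm' t htm'
      by_cases hlm' : l ∣ m'
      · -- Hensel step
        obtain ⟨m'', hm''⟩ := hlm'
        have hm''Z : (m' : ℤ) = l * m'' := by exact_mod_cast hm''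
        have hXW : ¬ ((l : ℤ) ∣ X ∧ (l : ℤ) ∣ W) := by
          rintro ⟨hX, hW⟩
          have h2 : (l : ℤ) ∣ t := by
            have e : t = X * X + d * W * W - (l : ℤ) * (m'' * F) := by
              rw [hm''Z] at hF
              linear_combination -hF
            rw [e]
            exact dvd_sub (dvd_add (hX.mul_left _) (hW.mul_left _)) (dvd_mul_right _ _)
          exact hlpZ.not_isUnit (htl.isUnit_of_dvd' h2 dvd_rfl)
        have h2l : IsCoprime (2 : ℤ) (l : ℤ) := hdl.of_mul_left_left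
        have hdl' : IsCoprime d (l : ℤ) := hdl.of_mul_left_right
        by_cases hX : (l : ℤ) ∣ X
        · have hW : ¬ (l : ℤ) ∣ W := fun h => hXW ⟨hX, h⟩
          have hWl : IsCoprime W (l : ℤ) := ((Prime.coprime_iff_not_dvd hlpZ).2 hW).symm
          have hc : IsCoprime (2 * d * W) (l : ℤ) := IsCoprime.mul_left hdl hWl
          obtain ⟨p, q, hpq⟩ := hc
          refine ⟨X, W + m' * (-(F * p)), q * F + d * m'' * (F * p) ^ 2, ?_⟩
          rw [hmZ]
          have e1 : X ^ 2 + d * (W + m' * (-(F * p))) ^ 2 - t =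
            (X ^ 2 + d * W ^ 2 - t) - (m' : ℤ) * (2 * d * W * (F * p)) + d * m' ^ 2 * (F * p) ^ 2 := by ring
          rw [e1, hF]
          have e2 : p * (2 * d * W) = 1 - q * l := by linear_combination hpq
          have e3 : (m' : ℤ) ^ 2 = m' * (l * m'') := by rw [← hm''Z]; ring
          rw [e3]
          linear_combination (-(m' : ℤ) * F) * e2
        · have hXl : IsCoprime X (l : ℤ) := ((Prime.coprime_iff_not_dvd hlpZ).2 hX).symm
          have hc : IsCoprime (2 * X) (l : ℤ) := IsCoprime.mul_left h2l hXl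
          obtain ⟨p, q, hpq⟩ := hc
          refine ⟨X + m' * (-(F * p)), W, q * F + m'' * (F * p) ^ 2, ?_⟩
          rw [hmZ]
          have e1 : (X + m' * (-(F * p))) ^ 2 + d * W ^ 2 - t =
            (X ^ 2 + d * W ^ 2 - t) - (m' : ℤ) * (2 * X * (F * p)) + m' ^ 2 * (F * p) ^ 2 := by ring
          rw [e1, hF]
          have e3 : (m' : ℤ) ^ 2 = m' * (l * m'') := by rw [← hm''Z]; ring
          rw [e3]
          linear_combination (-(m' : ℤ) * F) * hpq
      · -- new prime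
        have hcop : IsCoprime (l : ℤ) (m' : ℤ) := Nat.isCoprime_iff_coprime.2 ((Nat.Prime.coprime_iff_not_dvd hlp).2 hlm')
        have : Fact l.Prime := ⟨hlp⟩
        obtain ⟨Y, V, hYV⟩ : ∃ Y V : ℤ, (l : ℤ) ∣ Y ^ 2 + d * V ^ 2 - t := by
          have hd0 : ((d : ℤ) : ZMod l) ≠ 0 := by
            intro h
            have h3 : (l : ℤ) ∣ d := (ZMod.intCast_zmod_eq_zero_iff_dvd _ _).1 h
            exact hlpZ.not_isUnit ((hdl.of_mul_left_right).isUnit_of_dvd' h3 dvd_rfl)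
          have hl2 : l ≠ 2 := by
            intro h
            have h2l : IsCoprime (2 : ℤ) (l : ℤ) := hdl.of_mul_left_left
            rw [h] at h2l
            have := h2l.isUnit_of_dvd' (dvd_refl _) (by norm_num)
            rw [Int.isUnit_iff] at this
            omega
          have hcard : Fintype.card (ZMod l) % 2 = 1 := by
            rw [ZMod.card]
            exact hlp.eq_two_or_odd.resolve_left hl2
          obtain ⟨a, b, hab⟩ := FiniteField.exists_root_sum_quadratic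
            (f := (Polynomial.X ^ 2 : Polynomial (ZMod l)))
            (g := (Polynomial.C ((d : ℤ) : ZMod l) * Polynomial.X ^ 2 - Polynomial.C ((t : ℤ) : ZMod l)))
            (Polynomial.degree_X_pow 2)
            (by
              rw [Polynomial.degree_sub_C]
              · exact Polynomial.degree_C_mul_X_pow 2 hd0
              · rw [Polynomial.degree_C_mul_X_pow 2 hd0]
                norm_num)
            hcard
          refine ⟨(a.val : ℤ), (b.val : ℤ), ?_⟩
          rw [← ZMod.intCast_zmod_eq_zero_iff_dvd]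
          push_cast
          rw [ZMod.natCast_zmod_val, ZMod.natCast_zmod_val]
          simp only [Polynomial.eval_pow, Polynomial.eval_X, Polynomial.eval_sub, Polynomial.eval_mul,
            Polynomial.eval_C] at hab
          linear_combination hab
        obtain ⟨X', hx1, hx2⟩ := crt2 _ _ hcop Y X
        obtain ⟨W', hw1, hw2⟩ := crt2 _ _ hcop V W
        refine ⟨X', W', ?_⟩
        rw [hmZ]
        apply IsCoprime.mul_dvd hcop
        · have e : X' ^ 2 + d * W' ^ 2 - t = (X' - Y) * (X' + Y) + (W' - V) * (d * (W' + V)) + (Y ^ 2 + d * V ^ 2 - t) := by ring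
          rw [e]
          exact dvd_add (dvd_add (hx1.mul_right _) (hw1.mul_right _)) hYV
        · have e : X' ^ 2 + d * W' ^ 2 - t = (X' - X) * (X' + X) + (W' - W) * (d * (W' + W)) + (X ^ 2 + d * W ^ 2 - t) := by ring
          rw [e]
          exact dvd_add (dvd_add (hx2.mul_right _) (hw2.mul_right _)) ⟨F, hF⟩

end Pool.Agent.TH696.FA
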