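import Pool.Agent.W65.FS.Sum
import Pool.Agent.W65.FS.Lower

/-!
# Independence of the main term of the residue class, for all moduli divisible by 4
-/

set_option autoImplicit false
open Finset

namespace Pool.Agent.TH696.FA
open Pool.Agent.W65.FS

/-- admissible residue classes for a modulus `D` divisible by 4 -/
def GoodG (n D : ℕ) (u : Fin 4 → ℤ) : Prop :=
  (2 * D : ℤ) ∣ (∑ i, u i ^ 2) - n ∧ ∀ l : ℕ, l.Prime → l ∣ D → ∃ i, ¬ (l : ℤ) ∣ u i

lemma gs_zeroG (c : ℕ) [NeZero c] (D : ℕ) (a u : ℤ) (h : ℕ) (h1 : (c : ℤ) ∣ (D : ℤ) ^ 2 * h)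
    (h2 : ¬ (c : ℤ) ∣ 2 * a * D * h * u) :
    gs c D (a : ZMod c) (u : ZMod c) 0 = 0 := by
  have hcz : (D : ZMod c) ^ 2 * (h : ZMod c) = 0 := by
    have := (ZMod.intCast_zmod_eq_zero_iff_dvd _ c).2 h1
    push_cast at this
    exact this
  have hshift : gs c D (a : ZMod c) (u : ZMod c) 0 =
      ZMod.stdAddChar (2 * (a : ZMod c) * (D : ZMod c) * (h : ZMod c) * (u : ZMod c)) *
        gs c D (a : ZMod c) (u : ZMod c) 0 := by
    conv_lhs => unfold gs
    rw [← Equiv.sum_comp (Equiv.addRight (h : ZMod c))]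
    unfold gs
    rw [Finset.mul_sum]
    apply Finset.sum_congr rfl
    intro s _
    rw [← AddChar.map_add_eq_mul]
    congr 1
    simp only [Equiv.coe_addRight]
    linear_combination (2 * (a : ZMod c) * s + a * h) * hcz
  have hne : ZMod.stdAddChar (2 * (a : ZMod c) * (D : ZMod c) * (h : ZMod c) * (u : ZMod c)) ≠ 1 := by
    intro h1
    have h3 : (2 * (a : ZMod c) * (D : ZMod c) * (h : ZMod c) * (u : ZMod c)) = 0 := by
      apply ZMod.injective_stdAddChar
      rw [h1, AddChar.map_zero_eq_one]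
    apply h2
    rw [← ZMod.intCast_zmod_eq_zero_iff_dvd]
    push_cast
    exact h3
  have h5 : (1 - ZMod.stdAddChar (2 * (a : ZMod c) * (D : ZMod c) * (h : ZMod c) * (u : ZMod c))) *
      gs c D (a : ZMod c) (u : ZMod c) 0 = 0 := by
    rw [sub_mul, one_mul]
    exact sub_eq_zero.2 hshift
  rcases mul_eq_zero.1 h5 with h6 | h6
  · exact absurd (sub_eq_zero.1 h6).symm hne
  · exact h6

/-- the arithmetic of the vanishing case -/
lemma vanish_arith (c D : ℕ) (hc : 0 < c) (hD : 0 < D) (h4 : 4 ∣ D) (l : ℕ) (hl : l.Prime) (hlD : l ∣ D)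
    (hlc : l ∣ c / Nat.gcd c (2 * D)) (a : ℤ) (ha : IsCoprime a (c : ℤ)) :
    ∃ h : ℕ, (c : ℤ) ∣ (D : ℤ) ^ 2 * h ∧ ∀ u : ℤ, ¬ (l : ℤ) ∣ u → ¬ (c : ℤ) ∣ 2 * a * D * h * u := by
  have hlp : Prime (l : ℤ) := Nat.prime_iff_prime_int.1 hl
  -- P = the l-part of 2D
  have h2D0 : 2 * D ≠ 0 := by omega
  set k := (2 * D).factorization l with hk
  obtain ⟨D'', hD''⟩ : l ^ k ∣ 2 * D := Nat.ordProj_dvd _ _
  have hD''l : ¬ l ∣ D'' := by
    have h1 := Nat.not_dvd_ordCompl hl h2D0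
    have h2 : 2 * D / l ^ k = D'' := by
      rw [hD'', Nat.mul_div_cancel_left _ (pow_pos hl.pos _)]
    rw [← hk, h2] at h1
    exact h1
  have hPc : l ^ (k + 1) ∣ c := by
    rw [hl.pow_dvd_iff_le_factorization hc.ne']
    by_contra hlt
    push Not at hlt
    have h1 : c.factorization l ≤ k := by omega
    have hg : Nat.gcd c (2 * D) ≠ 0 := Nat.gcd_ne_zero_left hc.ne'
    have h2 : (Nat.gcd c (2 * D)).factorization l = c.factorization l := by
      rw [Nat.factorization_gcd hc.ne' h2D0]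
      simp only [Finsupp.inf_apply]
      exact min_eq_left h1
    have h3 : (c / Nat.gcd c (2 * D)).factorization l = 0 := by
      rw [Nat.factorization_div (Nat.gcd_dvd_left _ _)]
      simp only [Finsupp.coe_tsub, Pi.sub_apply]
      rw [h2]; omega
    have h4' : c / Nat.gcd c (2 * D) ≠ 0 := by
      have := Nat.div_pos (Nat.le_of_dvd hc (Nat.gcd_dvd_left c (2 * D))) (Nat.pos_of_ne_zero hg)
      omega
    have h5 := (hl.dvd_iff_one_le_factorization h4').1 hlc
    omega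
  obtain ⟨h, hh⟩ := hPc
  have hh0 : h ≠ 0 := by
    rintro rfl
    simp at hh
    omega
  refine ⟨h, ?_, ?_⟩
  · -- c ∣ D² h
    obtain ⟨E, hE⟩ : 2 ∣ D := (by norm_num : (2 : ℕ) ∣ 4).trans h4
    have hlE : l ∣ E := by
      by_cases hl2 : l = 2
      · subst hl2
        obtain ⟨F, hF⟩ := h4
        exact ⟨F, by omega⟩
      · have h6 : l ∣ 2 * E := hE ▸ hlD
        rcases hl.dvd_mul.1 h6 with h7 | h7
        · exact absurd ((Nat.prime_dvd_prime_iff_eq hl Nat.prime_two).1 h7) hl2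
        · exact h7
    obtain ⟨G, hG⟩ := hlE
    have key : c * (G * D'') = D ^ 2 * h := by
      have e1 : D ^ 2 = E * (2 * D) := by rw [hE]; ring
      rw [e1, hD'', hG, hh, pow_succ]
      ring
    refine ⟨(G * D'' : ℕ), ?_⟩
    exact_mod_cast key.symm
  · intro u hu hdiv
    have e1 : (2 : ℤ) * a * D * h * u = ((2 * D : ℕ) : ℤ) * (a * h * u) := by push_cast; ring
    rw [e1, hD'', hh] at hdiv
    obtain ⟨t, ht⟩ := hdiv
    have hne : ((l : ℤ) ^ k * h) ≠ 0 := by
      apply mul_ne_zero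
      · exact pow_ne_zero _ (by exact_mod_cast hl.ne_zero)
      · exact_mod_cast hh0
    have h7 : (l : ℤ) ∣ D'' * a * u := by
      refine ⟨t, ?_⟩
      apply mul_left_cancel₀ hne
      push_cast at ht
      rw [pow_succ] at ht
      linear_combination ht
    rcases hlp.dvd_or_dvd h7 with h8 | h8
    · rcases hlp.dvd_or_dvd h8 with h9 | h9
      · exact hD''l (by exact_mod_cast h9)
      · have h10 : (l : ℤ) ∣ (c : ℤ) := by
          rw [hh, pow_succ]; push_cast
          exact ⟨l ^ k * h, by ring⟩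
        exact hlp.not_isUnit (ha.isUnit_of_dvd' h9 h10)
    · exact hu h8

lemma good_modG (n D : ℕ) (h4 : 4 ∣ D) (u : Fin 4 → ℤ) (g : ℤ) (hg : g ∣ 2 * D)
    (h : (2 * D : ℤ) ∣ (∑ i, u i ^ 2) - n) (x : Fin 4 → ℤ) :
    g ∣ (∑ i, (u i + D * x i) ^ 2) - n := by
  obtain ⟨E, hE⟩ : 2 ∣ D := (by norm_num : (2 : ℕ) ∣ 4).trans h4
  have h1 : (∑ i, (u i + D * x i) ^ 2) - n = ((∑ i, u i ^ 2) - n) + (2 * D) * (∑ i, (u i * x i + E * x i ^ 2)) := by
    have hE' : (D : ℤ) = 2 * E := by exact_mod_cast hE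
    simp only [Fin.sum_univ_four]
    rw [hE']
    ring
  rw [h1]
  exact dvd_add (hg.trans h) (hg.mul_right _)

theorem Tk_indepG (n D : ℕ) (hD : 0 < D) (h4 : 4 ∣ D) (u u' : Fin 4 → ℤ) (hu : GoodG n D u) (hu' : GoodG n D u')
    (c : ℕ) [NeZero c] (a : ℤ) (ha : IsCoprime a (c : ℤ)) :
    Tk c D n (a : ZMod c) u 0 = Tk c D n (a : ZMod c) u' 0 := by
  have hc0 : 0 < c := Nat.pos_of_ne_zero (NeZero.ne c)
  set g : ℕ := Nat.gcd c (2 * D) with hg
  have hg0 : 0 < g := Nat.gcd_pos_of_pos_left _ hc0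
  by_cases hcase : ∃ l : ℕ, l.Prime ∧ l ∣ c / g ∧ l ∣ D
  · obtain ⟨l, hl, hlc, hlD⟩ := hcase
    obtain ⟨h, hh1, hh2⟩ := vanish_arith c D hc0 hD h4 l hl hlD hlc a ha
    have key : ∀ w : Fin 4 → ℤ, GoodG n D w → Tk c D n (a : ZMod c) w 0 = 0 := by
      intro w hw
      obtain ⟨i, hi⟩ := hw.2 l hl hlD
      have hz := gs_zeroG c D a (w i) h hh1 (hh2 _ hi)
      unfold Tk
      simp only [Prod.fst_zero, Prod.snd_zero, Int.cast_zero]
      fin_cases i
      · simp only [Fin.zero_eta, Fin.isValue] at hz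
        rw [hz]; ring
      · simp only [Fin.mk_one, Fin.isValue] at hz
        rw [hz]; ring
      · have hz' : gs c D (a : ZMod c) (w 2 : ZMod c) 0 = 0 := hz
        rw [hz']; ring
      · have hz' : gs c D (a : ZMod c) (w 3 : ZMod c) 0 = 0 := hz
        rw [hz']; ring
    rw [key u hu, key u' hu']
  · push Not at hcase
    obtain ⟨c0, hc0'⟩ : g ∣ c := Nat.gcd_dvd_left _ _
    have hdivc : c / g = c0 := by
      conv_lhs => rw [hc0']
      exact Nat.mul_div_cancel_left _ hg0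
    have hcop : Nat.Coprime c0 D := by
      apply Nat.coprime_of_dvd
      intro l hl hlc hlD
      exact hcase l hl (hdivc ▸ hlc) hlD
    have hcop2 : Nat.Coprime c0 (2 * D) := by
      apply Nat.Coprime.mul_right _ hcop
      exact Nat.Coprime.coprime_dvd_right ((by norm_num : (2 : ℕ) ∣ 4).trans h4) hcop
    have hcopg : Nat.Coprime c0 g := Nat.Coprime.coprime_dvd_right (Nat.gcd_dvd_right _ _) hcop2
    have hcopZ : IsCoprime (c0 : ℤ) (D : ℤ) := Nat.isCoprime_iff_coprime.2 hcop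
    obtain ⟨r, m, hrm⟩ := hcopZ
    set h : Fin 4 → ℤ := fun i => m * (u i - u' i) with hh
    have hmod : ∀ i, (c0 : ℤ) ∣ u i - (u' i + D * h i) := by
      intro i
      refine ⟨r * (u i - u' i), ?_⟩
      rw [hh]
      simp only
      linear_combination (-(u i - u' i)) * hrm
    rw [Tk0_eq, Tk0_eq]
    rw [← Equiv.sum_comp (Equiv.addRight (fun i => (h i : ZMod c))) (fun p : Fin 4 → ZMod c =>
      ZMod.stdAddChar ((a : ZMod c) * ((∑ i, ((u' i : ZMod c) + (D : ZMod c) * p i) ^ 2) - (n : ZMod c))))]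
    apply Finset.sum_congr rfl
    intro p _
    congr 1
    simp only [Equiv.coe_addRight, Pi.add_apply]
    set s : Fin 4 → ℤ := fun i => ((p i).val : ℤ) with hs
    have hsp : ∀ i, p i = ((s i : ℤ) : ZMod c) := by
      intro i
      rw [hs]
      simp
    have hdiv : (c : ℤ) ∣ ((∑ i, (u i + D * s i) ^ 2) - n) - ((∑ i, (u' i + D * (s i + h i)) ^ 2) - n) := by
      rw [hc0']
      push_cast
      rw [mul_comm]
      apply IsCoprime.mul_dvd (Nat.isCoprime_iff_coprime.2 hcopg)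
      · have : ((∑ i, (u i + D * s i) ^ 2) - (n : ℤ)) - ((∑ i, (u' i + D * (s i + h i)) ^ 2) - n) =
          ∑ i, (u i - (u' i + D * h i)) * (u i + D * s i + (u' i + D * (s i + h i))) := by
          simp only [Fin.sum_univ_four]
          ring
        rw [this]
        exact Finset.dvd_sum fun i _ => (hmod i).mul_right _
      · have hgD : (g : ℤ) ∣ (2 * D : ℤ) := by exact_mod_cast Nat.gcd_dvd_right c (2 * D)
        exact dvd_sub (good_modG n D h4 u g hgD hu.1 s) (good_modG n D h4 u' g hgD hu'.1 (fun i => s i + h i))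
    have hz := (ZMod.intCast_zmod_eq_zero_iff_dvd _ c).2 hdiv
    have hz2 : ((((∑ i, (u i + D * s i) ^ 2) - n) : ℤ) : ZMod c) = ((((∑ i, (u' i + D * (s i + h i)) ^ 2) - n) : ℤ) : ZMod c) := by
      rw [← sub_eq_zero, ← Int.cast_sub]
      exact hz
    have e1 : (∑ i, ((u i : ZMod c) + (D : ZMod c) * p i) ^ 2) - (n : ZMod c) = ((((∑ i, (u i + D * s i) ^ 2) - n) : ℤ) : ZMod c) := by
      simp only [hsp]
      push_cast
      rfl
    have e2 : (∑ i, ((u' i : ZMod c) + (D : ZMod c) * (p i + (h i : ZMod c))) ^ 2) - (n : ZMod c) =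
        ((((∑ i, (u' i + D * (s i + h i)) ^ 2) - n) : ℤ) : ZMod c) := by
      simp only [hsp]
      push_cast
      rfl
    rw [e1, e2, hz2]

end Pool.Agent.TH696.FA
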