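import Pool.Agent.TH696.FA.OrthCount

/-!
# Local solutions with prescribed pair sums
-/

set_option autoImplicit false
open Finset

namespace Pool.Agent.TH696.FA
open Pool.Agent.W65.FS

lemma two_adic (e : ℤ) (he : 2 ∣ e) : ∀ m : ℕ, ∃ b : ℤ, (2 : ℤ) ^ (m + 1) ∣ b ^ 2 - b - e
  | 0 => ⟨0, by simpa using he.neg_right⟩
  | m + 1 => by
    obtain ⟨b, t, ht⟩ := two_adic e he m
    rcases Int.even_or_odd t with ⟨r, hr⟩ | ⟨r, hr⟩
    · refine ⟨b, r, ?_⟩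
      rw [ht, hr, pow_succ]
      ring
    · refine ⟨b + 2 ^ (m + 1), r + b + 2 ^ m, ?_⟩
      have e1 : (b + 2 ^ (m + 1)) ^ 2 - (b + 2 ^ (m + 1)) - e =
        (b ^ 2 - b - e) + 2 ^ (m + 1) * (2 * b) + (2 ^ (m + 1)) ^ 2 - 2 ^ (m + 1) := by ring
      rw [e1, ht, hr]
      ring

/-- an odd modulus: `2 a² + b² + c² ≡ n` with `b² + c²` a unit -/
lemma odd_local (L : ℕ) (hL : Odd L) (n : ℤ) :
    ∃ a b c : ℤ, (L : ℤ) ∣ 2 * a ^ 2 + b ^ 2 + c ^ 2 - n ∧ IsCoprime (b ^ 2 + c ^ 2) (L : ℤ) := by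
  classical
  have hL0 : 0 < L := hL.pos
  set a : ℕ := ∏ p ∈ L.primeFactors.filter (fun p : ℕ => ¬ (p : ℤ) ∣ n), p with ha
  have hcop : IsCoprime (n - 2 * (a : ℤ) ^ 2) (L : ℤ) := by
    rw [Int.isCoprime_iff_gcd_eq_one, Int.gcd_eq_natAbs, Int.natAbs_natCast]
    apply Nat.coprime_of_dvd
    intro l hl h1 h2
    have hlp : Prime (l : ℤ) := Nat.prime_iff_prime_int.1 hl
    have h3 : (l : ℤ) ∣ n - 2 * (a : ℤ) ^ 2 := Int.natCast_dvd.2 h1
    have hlL : l ∈ L.primeFactors := Nat.mem_primeFactors.2 ⟨hl, h2, hL0.ne'⟩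
    by_cases hln : (l : ℤ) ∣ n
    · have h4 : (l : ℤ) ∣ 2 * (a : ℤ) ^ 2 := by
        have := dvd_sub hln h3
        simpa using this
      rcases hlp.dvd_or_dvd h4 with h5 | h5
      · have h6 : l ∣ 2 := by exact_mod_cast h5
        have h7 := (Nat.prime_dvd_prime_iff_eq hl Nat.prime_two).1 h6
        rw [h7] at h2
        exact (Nat.not_even_iff_odd.2 hL) (even_iff_two_dvd.2 h2)
      · have h6 : (l : ℤ) ∣ (a : ℤ) := hlp.dvd_of_dvd_pow h5
        have h7 : l ∣ a := by exact_mod_cast h6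
        rw [ha] at h7
        obtain ⟨p, hp, hlp'⟩ := (Nat.prime_iff.1 hl).exists_mem_finset_dvd h7
        rw [Finset.mem_filter] at hp
        have h8 := (Nat.prime_dvd_prime_iff_eq hl (Nat.prime_of_mem_primeFactors hp.1)).1 hlp'
        rw [← h8] at hp
        exact hp.2 hln
    · have h4 : l ∣ a := by
        rw [ha]
        exact Finset.dvd_prod_of_mem (fun p => p) (Finset.mem_filter.2 ⟨hlL, hln⟩)
      have h5 : (l : ℤ) ∣ 2 * (a : ℤ) ^ 2 := by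
        apply Dvd.dvd.mul_left
        exact Dvd.dvd.trans (by exact_mod_cast h4) (dvd_pow_self _ two_ne_zero)
      apply hln
      have := dvd_add h3 h5
      simpa using this
  have hL4 : IsCoprime (L : ℤ) 4 := by
    obtain ⟨k, hk⟩ := hL
    have h2 : IsCoprime (L : ℤ) 2 := ⟨1, -k, by rw [hk]; push_cast; ring⟩
    have : (4 : ℤ) = 2 * 2 := by norm_num
    rw [this]
    exact IsCoprime.mul_right h2 h2
  obtain ⟨r, hr1, hr2⟩ := crt2 (L : ℤ) 4 hL4 (n - 2 * (a : ℤ) ^ 2) 1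
  have hrL : IsCoprime r (L : ℤ) := by
    obtain ⟨t, ht⟩ := hr1
    have e : r = (n - 2 * (a : ℤ) ^ 2) + L * t := by linear_combination ht
    rw [e]
    exact hcop.add_mul_left_left t
  have hr4 : IsCoprime r 4 := by
    obtain ⟨t, ht⟩ := hr2
    exact ⟨1, -t, by linear_combination ht⟩
  have hrL4 : IsCoprime r ((4 * L : ℕ) : ℤ) := by
    push_cast
    exact IsCoprime.mul_right hr4 hrL
  have : NeZero (4 * L) := ⟨by positivity⟩
  have hunit : IsUnit ((r : ℤ) : ZMod (4 * L)) := by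
    obtain ⟨s, t, hst⟩ := hrL4
    have h1 := congrArg (Int.cast : ℤ → ZMod (4 * L)) hst
    push_cast at h1
    have h2 : ((4 : ZMod (4 * L)) * (L : ZMod (4 * L))) = 0 := by
      have := ZMod.natCast_self (4 * L)
      push_cast at this
      exact this
    rw [h2, mul_zero, add_zero] at h1
    exact isUnit_iff_exists_inv.2 ⟨_, (mul_comm _ _).trans h1⟩
  obtain ⟨p, hpL, hp, hpr⟩ := Nat.forall_exists_prime_gt_and_eq_mod hunit L
  have hdiv : ((4 * L : ℕ) : ℤ) ∣ (p : ℤ) - r := by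
    rw [← ZMod.intCast_zmod_eq_zero_iff_dvd]
    push_cast
    rw [hpr, sub_self]
  have hp4 : p % 4 = 1 := by
    have h1 : (4 : ℤ) ∣ (p : ℤ) - r := (Dvd.intro (L : ℤ) (by push_cast; ring)).trans hdiv
    have h2 : (4 : ℤ) ∣ (p : ℤ) - 1 := by
      have := dvd_add h1 hr2
      simpa using this
    omega
  have : Fact p.Prime := ⟨hp⟩
  obtain ⟨b, c, hbc⟩ := Nat.Prime.sq_add_sq (p := p) (by omega)
  refine ⟨a, b, c, ?_, ?_⟩
  · have h1 : (L : ℤ) ∣ (p : ℤ) - r := (Dvd.intro (4 : ℤ) (by push_cast; ring)).trans hdiv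
    have e : 2 * (a : ℤ) ^ 2 + (b : ℤ) ^ 2 + (c : ℤ) ^ 2 - n = ((p : ℤ) - r) + (r - (n - 2 * (a : ℤ) ^ 2)) := by
      have : (p : ℤ) = (b : ℤ) ^ 2 + (c : ℤ) ^ 2 := by exact_mod_cast hbc.symm
      rw [this]; ring
    rw [e]
    exact dvd_add h1 hr1
  · have e : ((b : ℤ) ^ 2 + (c : ℤ) ^ 2) = (p : ℤ) := by exact_mod_cast hbc
    rw [e, Nat.isCoprime_iff_coprime]
    exact (Nat.Prime.coprime_iff_not_dvd hp).2 (fun h => absurd (Nat.le_of_dvd hL0 h) (by omega))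

/-- the admissible class used for the question -/
theorem local_class (n v L : ℕ) (hn : Odd n) (hL : Odd L) :
    ∃ u : Fin 4 → ℤ, GoodG n (2 ^ (v + 2) * L) u ∧ ((2 ^ (v + 2) * L : ℕ) : ℤ) ∣ u 0 + u 1 ∧
      (2 : ℤ) ^ (v + 2) ∣ u 2 + u 3 - 1 ∧ ¬ (4 : ℤ) ∣ u 0 := by
  obtain ⟨a', b', c', habc, hunit⟩ := odd_local L hL n
  obtain ⟨h, hh⟩ := hn
  -- the 2-adic part
  obtain ⟨a, ha4, ha⟩ : ∃ a : ℤ, ¬ (4 : ℤ) ∣ a ∧ (2 : ℤ) ∣ (h : ℤ) - a ^ 2 := by
    rcases Nat.even_or_odd h with ⟨r, hr⟩ | ⟨r, hr⟩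
    · exact ⟨2, by omega, ⟨r - 2, by rw [hr]; push_cast; ring⟩⟩
    · exact ⟨1, by omega, ⟨r, by rw [hr]; push_cast; ring⟩⟩
  obtain ⟨b, t, hb⟩ := two_adic _ ha (v + 1)
  have h2L : IsCoprime ((2 : ℤ) ^ (v + 3)) (L : ℤ) := by
    obtain ⟨k, hk⟩ := hL
    have h2 : IsCoprime (2 : ℤ) (L : ℤ) := ⟨-k, 1, by rw [hk]; push_cast; ring⟩
    exact h2.pow_left
  obtain ⟨u0, p0, q0⟩ := crt2 _ _ h2L a a'
  obtain ⟨u1, p1, q1⟩ := crt2 _ _ h2L (-a) (-a')
  obtain ⟨u2, p2, q2⟩ := crt2 _ _ h2L b b'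
  obtain ⟨u3, p3, q3⟩ := crt2 _ _ h2L (1 - b) c'
  have hpow : (2 : ℤ) ^ (v + 2) ∣ 2 ^ (v + 3) := pow_dvd_pow _ (by omega)
  have h4pow : (4 : ℤ) ∣ 2 ^ (v + 3) := by
    have : (2 : ℤ) ^ (v + 3) = 4 * 2 ^ (v + 1) := by ring
    rw [this]; exact dvd_mul_right _ _
  refine ⟨![u0, u1, u2, u3], ⟨?_, ?_⟩, ?_, ?_, ?_⟩
  · rw [Fin.sum_univ_four]
    simp only [Matrix.cons_val_zero, Matrix.cons_val_one, Matrix.cons_val]
    have e : (2 * ((2 ^ (v + 2) * L : ℕ) : ℤ)) = 2 ^ (v + 3) * L := by push_cast; ring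
    rw [e]
    apply IsCoprime.mul_dvd h2L
    · have e1 : u0 ^ 2 + u1 ^ 2 + u2 ^ 2 + u3 ^ 2 - (n : ℤ) = (u0 - a) * (u0 + a) + (u1 - -a) * (u1 - a) +
        (u2 - b) * (u2 + b) + (u3 - (1 - b)) * (u3 + (1 - b)) + (2 * a ^ 2 + b ^ 2 + (1 - b) ^ 2 - n) := by ring
      rw [e1]
      refine dvd_add (dvd_add (dvd_add (dvd_add (p0.mul_right _) (p1.mul_right _)) (p2.mul_right _))
        (p3.mul_right _)) ⟨t, ?_⟩
      rw [hh]
      push_cast
      linear_combination 2 * hb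
    · have e1 : u0 ^ 2 + u1 ^ 2 + u2 ^ 2 + u3 ^ 2 - (n : ℤ) = (u0 - a') * (u0 + a') + (u1 - -a') * (u1 - a') +
        (u2 - b') * (u2 + b') + (u3 - c') * (u3 + c') + (2 * a' ^ 2 + b' ^ 2 + c' ^ 2 - n) := by ring
      rw [e1]
      exact dvd_add (dvd_add (dvd_add (dvd_add (q0.mul_right _) (q1.mul_right _)) (q2.mul_right _))
        (q3.mul_right _)) habc
  · intro l hl hlD
    have hlp : Prime (l : ℤ) := Nat.prime_iff_prime_int.1 hl
    by_contra hall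
    push Not at hall
    have g0 : (l : ℤ) ∣ u0 := hall 0
    have g1 : (l : ℤ) ∣ u1 := hall 1
    have g2 : (l : ℤ) ∣ u2 := hall 2
    have g3 : (l : ℤ) ∣ u3 := hall 3
    rcases (Nat.Prime.dvd_mul hl).1 hlD with h5 | h5
    · have hl2 : l = 2 := (Nat.prime_dvd_prime_iff_eq hl Nat.prime_two).1 (hl.dvd_of_dvd_pow h5)
      subst hl2
      have w2 : (2 : ℤ) ∣ 2 ^ (v + 3) := dvd_pow_self _ (by omega)
      have k2 := dvd_sub g2 (w2.trans p2)
      have k3 := dvd_sub g3 (w2.trans p3)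
      have k := dvd_add k2 k3
      have e : (u2 - (u2 - b)) + (u3 - (u3 - (1 - b))) = 1 := by ring
      push_cast at k
      rw [e] at k
      omega
    · have hlL : (l : ℤ) ∣ (L : ℤ) := by exact_mod_cast h5
      have k2 : (l : ℤ) ∣ b' := by
        have := dvd_sub g2 (hlL.trans q2)
        simpa using this
      have k3 : (l : ℤ) ∣ c' := by
        have := dvd_sub g3 (hlL.trans q3)
        simpa using this
      have k : (l : ℤ) ∣ b' ^ 2 + c' ^ 2 :=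
        dvd_add (k2.trans (dvd_pow_self _ two_ne_zero)) (k3.trans (dvd_pow_self _ two_ne_zero))
      exact hlp.not_isUnit (hunit.isUnit_of_dvd' k hlL)
  · simp only [Matrix.cons_val_zero, Matrix.cons_val_one]
    push_cast
    apply IsCoprime.mul_dvd (h2L.of_isCoprime_of_dvd_left hpow)
    · have e : u0 + u1 = (u0 - a) + (u1 - -a) := by ring
      rw [e]
      exact dvd_add (hpow.trans p0) (hpow.trans p1)
    · have e : u0 + u1 = (u0 - a') + (u1 - -a') := by ring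
      rw [e]
      exact dvd_add q0 q1
  · simp only [Matrix.cons_val]
    have e : u2 + u3 - 1 = (u2 - b) + (u3 - (1 - b)) := by ring
    rw [e]
    exact dvd_add (hpow.trans p2) (hpow.trans p3)
  · simp only [Matrix.cons_val_zero]
    intro hd
    apply ha4
    have := dvd_sub hd (h4pow.trans p0)
    simpa using this

end Pool.Agent.TH696.FA
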