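import Mathlib

/-!
# Five rational rotations of the plane that bring every vector to the closed first quadrant
-/

set_option autoImplicit false

namespace Pool.Agent.TH696.FA

/-- the pairs `(c, s)` of the rotations by `0, θ, -θ, 2θ, -2θ`, multiplied by `N²` -/
def rc (P Q N : ℤ) : Fin 5 → ℤ
  | 0 => N ^ 2
  | 1 => N * P
  | 2 => N * P
  | 3 => P ^ 2 - Q ^ 2
  | 4 => P ^ 2 - Q ^ 2

def rs (P Q N : ℤ) : Fin 5 → ℤ
  | 0 => 0
  | 1 => N * Q
  | 2 => -(N * Q)
  | 3 => 2 * P * Q
  | 4 => -(2 * P * Q)

lemma rc_rs (P Q N : ℤ) (h : P ^ 2 + Q ^ 2 = N ^ 2) (k : Fin 5) : rc P Q N k ^ 2 + rs P Q N k ^ 2 = N ^ 4 := by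
  fin_cases k
  · simp [rc, rs]; ring
  · simp only [rc, rs]; linear_combination N ^ 2 * h
  · simp only [rc, rs]; linear_combination N ^ 2 * h
  · simp only [rc, rs]; linear_combination (P ^ 2 + Q ^ 2 + N ^ 2) * h
  · simp only [rc, rs]; linear_combination (P ^ 2 + Q ^ 2 + N ^ 2) * h

lemma rc_congr (P Q N D : ℤ) (h1 : D ∣ P - N) (h2 : D ∣ Q) (k : Fin 5) : D ∣ rc P Q N k - N ^ 2 := by
  fin_cases k
  · simp [rc]
  · simp only [rc]
    have : N * P - N ^ 2 = N * (P - N) := by ring
    rw [this]; exact h1.mul_left _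
  · simp only [rc]
    have : N * P - N ^ 2 = N * (P - N) := by ring
    rw [this]; exact h1.mul_left _
  · simp only [rc]
    have : P ^ 2 - Q ^ 2 - N ^ 2 = (P + N) * (P - N) - Q * Q := by ring
    rw [this]; exact dvd_sub (h1.mul_left _) (h2.mul_left _)
  · simp only [rc]
    have : P ^ 2 - Q ^ 2 - N ^ 2 = (P + N) * (P - N) - Q * Q := by ring
    rw [this]; exact dvd_sub (h1.mul_left _) (h2.mul_left _)

lemma rs_congr (P Q N D : ℤ) (h2 : D ∣ Q) (k : Fin 5) : D ∣ rs P Q N k := by
  fin_cases k
  · simp [rs]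
  · simp only [rs]; exact h2.mul_left _
  · simp only [rs]; exact (h2.mul_left _).neg_right
  · simp only [rs]; exact h2.mul_left _
  · simp only [rs]; exact (h2.mul_left _).neg_right

/-- every vector is brought to the first quadrant by one of the five rotations -/
theorem cover (P Q N : ℤ) (hN : 0 ≤ N) (hP : 0 ≤ P) (hQ : 3 * P ≤ Q) (x y : ℤ) :
    ∃ k : Fin 5, 0 ≤ rc P Q N k * x - rs P Q N k * y ∧ 0 ≤ rs P Q N k * x + rc P Q N k * y := by
  have hQ0 : 0 ≤ Q := by linarith
  have hc2 : P ^ 2 - Q ^ 2 ≤ 0 := by nlinarith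
  have hs2 : 0 ≤ 2 * P * Q := by positivity
  have hcs : 2 * P * Q ≤ Q ^ 2 - P ^ 2 := by nlinarith
  rcases le_or_gt 0 x with hx | hx <;> rcases le_or_gt 0 y with hy | hy
  · exact ⟨0, by simp only [rc, rs]; nlinarith [mul_nonneg (sq_nonneg N) hx],
      by simp only [rc, rs]; nlinarith [mul_nonneg (sq_nonneg N) hy]⟩
  · -- x ≥ 0, y < 0
    by_cases h1 : 0 ≤ Q * x + P * y
    · refine ⟨1, ?_, ?_⟩
      · simp only [rc, rs]
        have : N * P * x - N * Q * y = N * (P * x + Q * (-y)) := by ring
        rw [this]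
        have := mul_nonneg hP hx
        have := mul_nonneg hQ0 (by linarith : 0 ≤ -y)
        positivity
      · simp only [rc, rs]
        have : N * Q * x + N * P * y = N * (Q * x + P * y) := by ring
        rw [this]
        exact mul_nonneg hN h1
    · refine ⟨3, ?_, ?_⟩
      · simp only [rc, rs]
        -- (P²-Q²) x - 2PQ y = P (P x - Q y) - Q (Q x + P y)
        have : (P ^ 2 - Q ^ 2) * x - 2 * P * Q * y = P * (P * x + Q * (-y)) + Q * (-(Q * x + P * y)) := by ring
        rw [this]
        have := mul_nonneg hP hx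
        have := mul_nonneg hQ0 (by linarith : 0 ≤ -y)
        have h3 : 0 ≤ -(Q * x + P * y) := by linarith
        positivity
      · simp only [rc, rs]
        have : 2 * P * Q * x + (P ^ 2 - Q ^ 2) * y = 2 * P * Q * x + (Q ^ 2 - P ^ 2) * (-y) := by ring
        rw [this]
        have h3 : 0 ≤ Q ^ 2 - P ^ 2 := by linarith
        have h4 : 0 ≤ -y := by linarith
        positivity
  · -- x < 0, y ≥ 0
    by_cases h1 : 0 ≤ P * x + Q * y
    · refine ⟨2, ?_, ?_⟩
      · simp only [rc, rs]
        have : N * P * x - -(N * Q) * y = N * (P * x + Q * y) := by ring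
        rw [this]
        exact mul_nonneg hN h1
      · simp only [rc, rs]
        have : -(N * Q) * x + N * P * y = N * (Q * (-x) + P * y) := by ring
        rw [this]
        have := mul_nonneg hQ0 (by linarith : 0 ≤ -x)
        have := mul_nonneg hP hy
        positivity
    · refine ⟨4, ?_, ?_⟩
      · simp only [rc, rs]
        have : (P ^ 2 - Q ^ 2) * x - -(2 * P * Q) * y = (Q ^ 2 - P ^ 2) * (-x) + 2 * P * Q * y := by ring
        rw [this]
        have h3 : 0 ≤ Q ^ 2 - P ^ 2 := by linarith
        have h4 : 0 ≤ -x := by linarith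
        positivity
      · simp only [rc, rs]
        have : -(2 * P * Q) * x + (P ^ 2 - Q ^ 2) * y = P * (Q * (-x) + P * y) + Q * (-(P * x + Q * y)) := by ring
        rw [this]
        have := mul_nonneg hQ0 (by linarith : 0 ≤ -x)
        have := mul_nonneg hP hy
        have h3 : 0 ≤ -(P * x + Q * y) := by linarith
        positivity
  · -- x < 0, y < 0
    by_cases h1 : 0 ≤ 2 * P * Q * x + (P ^ 2 - Q ^ 2) * y
    · refine ⟨3, ?_, ?_⟩
      · simp only [rc, rs]
        have : (P ^ 2 - Q ^ 2) * x - 2 * P * Q * y = (Q ^ 2 - P ^ 2) * (-x) + 2 * P * Q * (-y) := by ring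
        rw [this]
        have h3 : 0 ≤ Q ^ 2 - P ^ 2 := by linarith
        have h4 : 0 ≤ -x := by linarith
        have h5 : 0 ≤ -y := by linarith
        positivity
      · simpa only [rc, rs] using h1
    · refine ⟨4, ?_, ?_⟩
      · simp only [rc, rs]
        -- (Q²-P²)|x| - 2PQ |y| where (Q²-P²)|y| < 2PQ|x|
        push Not at h1
        set c := Q ^ 2 - P ^ 2 with hc
        set s := 2 * P * Q with hs
        have e1 : c * (-y) < s * (-x) := by
          have : 2 * P * Q * x + (P ^ 2 - Q ^ 2) * y = -(s * (-x)) + c * (-y) := by rw [hc, hs]; ring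
          linarith
        have h4 : 0 < -x := by linarith
        have h5 : 0 < -y := by linarith
        have e2 : s * (-x) ≤ c * (-x) := mul_le_mul_of_nonneg_right hcs h4.le
        have hc0 : 0 ≤ c := by linarith
        have e3 : c * (-y) < c * (-x) := lt_of_lt_of_le e1 e2
        have e4 : -y < -x := lt_of_mul_lt_mul_left e3 hc0
        have e5 : s * (-y) ≤ c * (-x) := by
          calc s * (-y) ≤ s * (-x) := mul_le_mul_of_nonneg_left e4.le hs2
            _ ≤ c * (-x) := e2
        have : (P ^ 2 - Q ^ 2) * x - -(2 * P * Q) * y = c * (-x) - s * (-y) := by rw [hc, hs]; ring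
        rw [this]
        linarith
      · simp only [rc, rs]
        have : -(2 * P * Q) * x + (P ^ 2 - Q ^ 2) * y = 2 * P * Q * (-x) + (Q ^ 2 - P ^ 2) * (-y) := by ring
        rw [this]
        have h3 : 0 ≤ Q ^ 2 - P ^ 2 := by linarith
        have h4 : 0 ≤ -x := by linarith
        have h5 : 0 ≤ -y := by linarith
        positivity

/-- a rotation is injective -/
lemma rot_inj (c s M : ℤ) (hM : M ≠ 0) (h : c ^ 2 + s ^ 2 = M) (x y x' y' : ℤ)
    (h1 : c * x - s * y = c * x' - s * y') (h2 : s * x + c * y = s * x' + c * y') : x = x' ∧ y = y' := by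
  constructor
  · have e : M * x = M * x' := by
      rw [← h]; linear_combination c * h1 + s * h2
    exact mul_left_cancel₀ hM e
  · have e : M * y = M * y' := by
      rw [← h]; linear_combination (-s) * h1 + c * h2
    exact mul_left_cancel₀ hM e

end Pool.Agent.TH696.FA
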