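import Pool.Agent.TH696.FA.Count
import Pool.Agent.TH696.FA.Rot

/-!
# Representations in an admissible class with nonnegative coordinates
-/

set_option autoImplicit false
open Finset

namespace Pool.Agent.TH696.FA
open Pool.Agent.W65.FS

lemma crt2 (m0 m1 : ℤ) (h : IsCoprime m0 m1) (r0 r1 : ℤ) : ∃ x : ℤ, m0 ∣ x - r0 ∧ m1 ∣ x - r1 := by
  obtain ⟨a, b, hab⟩ := h
  refine ⟨r0 * (b * m1) + r1 * (a * m0), ⟨(r1 - r0) * a, ?_⟩, ⟨(r0 - r1) * b, ?_⟩⟩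
  · linear_combination r0 * hab
  · linear_combination r1 * hab

lemma crt3 (m0 m1 m2 : ℤ) (h01 : IsCoprime m0 m1) (h02 : IsCoprime m0 m2) (h12 : IsCoprime m1 m2)
    (r0 r1 r2 : ℤ) : ∃ x : ℤ, m0 ∣ x - r0 ∧ m1 ∣ x - r1 ∧ m2 ∣ x - r2 := by
  obtain ⟨y, hy1, hy2⟩ := crt2 m1 m2 h12 r1 r2
  obtain ⟨x, hx1, hx2⟩ := crt2 m0 (m1 * m2) (IsCoprime.mul_right h01 h02) r0 y
  refine ⟨x, hx1, ?_, ?_⟩
  · have := dvd_add ((dvd_mul_right m1 m2).trans hx2) hy1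
    simpa using this
  · have := dvd_add ((dvd_mul_left m2 m1).trans hx2) hy2
    simpa using this

/-- a primitive representation of `n` by two squares modulo `N²` -/
lemma two_sq (P Q N n : ℤ) (h : P ^ 2 + Q ^ 2 = N ^ 2) (hQ : IsCoprime Q (N ^ 2)) (h2 : IsCoprime 2 (N ^ 2)) :
    ∃ x y : ℤ, N ^ 2 ∣ x ^ 2 + y ^ 2 - n ∧ ∀ l : ℤ, Prime l → l ∣ N ^ 2 → ¬ (l ∣ x ∧ l ∣ y) := by
  obtain ⟨q, t, hq⟩ := hQ
  obtain ⟨g, t', hg⟩ := h2
  -- q Q + t N² = 1, g 2 + t' N² = 1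
  have hi : (P * q) ^ 2 + 1 = N ^ 2 * (q ^ 2 + 2 * t - t ^ 2 * N ^ 2) := by
    have e1 : q * Q = 1 - t * N ^ 2 := by linear_combination hq
    have e2 : (q * Q) ^ 2 = (1 - t * N ^ 2) ^ 2 := by rw [e1]
    linear_combination q ^ 2 * h - e2
  have hg' : (2 * g) ^ 2 - 1 = N ^ 2 * (-2 * t' + t' ^ 2 * N ^ 2) := by
    have e1 : 2 * g = 1 - t' * N ^ 2 := by linear_combination hg
    rw [e1]; ring
  refine ⟨(1 + n) * g, -(P * q) * ((1 - n) * g), ?_, ?_⟩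
  · refine ⟨((1 - n) * g) ^ 2 * (q ^ 2 + 2 * t - t ^ 2 * N ^ 2) + n * (-2 * t' + t' ^ 2 * N ^ 2), ?_⟩
    linear_combination ((1 - n) * g) ^ 2 * hi + n * hg'
  · intro l hl hlN ⟨hx, hy⟩
    -- x + ι y ≡ 2 g ≡ 1
    have e : (1 : ℤ) = ((1 + n) * g + (P * q) * (-(P * q) * ((1 - n) * g))) +
        N ^ 2 * ((1 - n) * g * (q ^ 2 + 2 * t - t ^ 2 * N ^ 2) + t') := by
      linear_combination ((1 - n) * g) * hi - hg
    have h1 : l ∣ 1 := by
      rw [e]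
      exact dvd_add (dvd_add hx (hy.mul_left _)) (hlN.mul_right _)
    exact hl.not_isUnit (isUnit_of_dvd_one h1)

/-- data of a rational rotation that is the identity modulo `D` -/
structure RotData (D P Q N : ℤ) : Prop where
  sq : P ^ 2 + Q ^ 2 = N ^ 2
  hN : 0 < N
  hP : 0 ≤ P
  hQ : 3 * P ≤ Q
  d1 : D ∣ P - N
  d2 : D ∣ Q
  cQ : IsCoprime Q N
  c2 : IsCoprime 2 N
  cD : IsCoprime D N

lemma rotData (D : ℤ) (hD : 0 < D) (h4 : 4 ∣ D) :
    RotData D (9 * D ^ 2 + 10 * D + 1) (40 * D ^ 2 + 8 * D) (41 * D ^ 2 + 10 * D + 1) := by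
  obtain ⟨E, rfl⟩ := h4
  have hE : 1 ≤ E := by omega
  have cA4 : IsCoprime (5 * (4 * E) + 1) 4 := ⟨1, -(5 * E), by ring⟩
  have cAD : IsCoprime (5 * (4 * E) + 1) (4 * E) := ⟨1, -5, by ring⟩
  have cAB : IsCoprime (5 * (4 * E) + 1) (4 * (4 * E)) := IsCoprime.mul_right cA4 cAD
  have c2 : IsCoprime (2 : ℤ) (41 * (4 * E) ^ 2 + 10 * (4 * E) + 1) :=
    ⟨-(328 * E ^ 2 + 20 * E), 1, by ring⟩
  have cAN : IsCoprime (5 * (4 * E) + 1) (41 * (4 * E) ^ 2 + 10 * (4 * E) + 1) := by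
    have h1 : IsCoprime (5 * (4 * E) + 1) ((4 * (4 * E)) ^ 2 + (5 * (4 * E) + 1) * (5 * (4 * E) + 1)) :=
      (cAB.pow_right).add_mul_left_right _
    have e : (4 * (4 * E)) ^ 2 + (5 * (4 * E) + 1) * (5 * (4 * E) + 1) = 41 * (4 * E) ^ 2 + 10 * (4 * E) + 1 := by ring
    rwa [e] at h1
  have cBN : IsCoprime (4 * (4 * E)) (41 * (4 * E) ^ 2 + 10 * (4 * E) + 1) := by
    have h1 : IsCoprime (4 * (4 * E)) ((5 * (4 * E) + 1) ^ 2 + (4 * (4 * E)) * (4 * (4 * E))) :=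
      (cAB.symm.pow_right).add_mul_left_right _
    have e : (5 * (4 * E) + 1) ^ 2 + (4 * (4 * E)) * (4 * (4 * E)) = 41 * (4 * E) ^ 2 + 10 * (4 * E) + 1 := by ring
    rwa [e] at h1
  refine ⟨by ring, by positivity, by positivity, by nlinarith, ⟨-(32 * (4 * E)), by ring⟩,
    ⟨40 * (4 * E) + 8, by ring⟩, ?_, c2, ⟨-(41 * (4 * E) + 10), 1, by ring⟩⟩
  have e : 40 * (4 * E) ^ 2 + 8 * (4 * E) = 2 * ((5 * (4 * E) + 1) * (4 * (4 * E))) := by ring
  rw [e]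
  exact IsCoprime.mul_left c2 (IsCoprime.mul_left cAN cBN)

/-- the representations with nonnegative coordinates -/
noncomputable def orth (n D : ℕ) (u : Fin 4 → ℤ) : Finset (Fin 4 → ℤ) := by
  classical
  exact (repsc n D u).filter (fun X => ∀ i, 0 ≤ X i)

lemma mem_orth (n D : ℕ) (u X : Fin 4 → ℤ) : X ∈ orth n D u ↔
    (∑ i, X i ^ 2 = n ∧ ∀ i, (D : ℤ) ∣ X i - u i) ∧ ∀ i, 0 ≤ X i := by
  classical
  unfold orth
  rw [Finset.mem_filter, mem_repsc]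

/-- the rotated vector -/
def rotv (P Q N P' Q' N' : ℤ) (k : Fin 5 × Fin 5) (X : Fin 4 → ℤ) : Fin 4 → ℤ :=
  ![rc P Q N k.1 * (X 0 / N ^ 2) - rs P Q N k.1 * (X 1 / N ^ 2),
    rs P Q N k.1 * (X 0 / N ^ 2) + rc P Q N k.1 * (X 1 / N ^ 2),
    rc P' Q' N' k.2 * (X 2 / N' ^ 2) - rs P' Q' N' k.2 * (X 3 / N' ^ 2),
    rs P' Q' N' k.2 * (X 2 / N' ^ 2) + rc P' Q' N' k.2 * (X 3 / N' ^ 2)]

theorem orth_engine (n D : ℕ) (h4 : 4 ∣ D) (u : Fin 4 → ℤ) (hu : GoodG n D u)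
    (P Q N P' Q' N' : ℤ) (h1 : RotData D P Q N) (h2 : RotData D P' Q' N') (h12 : IsCoprime N N')
    (D' : ℕ) (hD' : (D' : ℤ) = D * N ^ 2 * N' ^ 2) :
    ∃ u' : Fin 4 → ℤ, GoodG n D' u' ∧ (repsc n D' u').card ≤ 25 * (orth n D u).card := by
  classical
  have cDN : IsCoprime (D : ℤ) (N ^ 2) := h1.cD.pow_right
  have cDN' : IsCoprime (D : ℤ) (N' ^ 2) := h2.cD.pow_right
  have cNN' : IsCoprime (N ^ 2) (N' ^ 2) := h12.pow
  obtain ⟨x, y, hxy, hxyp⟩ := two_sq P Q N n h1.sq h1.cQ.pow_right h1.c2.pow_right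
  obtain ⟨x', y', hxy', hxyp'⟩ := two_sq P' Q' N' n h2.sq h2.cQ.pow_right h2.c2.pow_right
  obtain ⟨a0, ha0, hb0, hc0⟩ := crt3 _ _ _ cDN cDN' cNN' (u 0) 0 x'
  obtain ⟨a1, ha1, hb1, hc1⟩ := crt3 _ _ _ cDN cDN' cNN' (u 1) 0 y'
  obtain ⟨a2, ha2, hb2, hc2⟩ := crt3 _ _ _ cDN cDN' cNN' (u 2) x 0
  obtain ⟨a3, ha3, hb3, hc3⟩ := crt3 _ _ _ cDN cDN' cNN' (u 3) y 0
  rw [sub_zero] at hb0 hb1 hc2 hc3
  set u' : Fin 4 → ℤ := ![a0, a1, a2, a3] with hu'
  have hDu' : ∀ i, (D : ℤ) ∣ u' i - u i := by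
    intro i
    fin_cases i
    · exact ha0
    · exact ha1
    · exact ha2
    · exact ha3
  have hg : GoodG n D u' := goodG_congr n D h4 u u' (fun i => by
    rw [← neg_sub]; exact (hDu' i).neg_right) hu
  have hsum : (∑ i, u' i ^ 2) - (n : ℤ) = a0 ^ 2 + a1 ^ 2 + a2 ^ 2 + a3 ^ 2 - n := by
    rw [Fin.sum_univ_four]
    rfl
  have hsN : N ^ 2 ∣ (∑ i, u' i ^ 2) - (n : ℤ) := by
    rw [hsum]
    have e : a0 ^ 2 + a1 ^ 2 + a2 ^ 2 + a3 ^ 2 - (n : ℤ) = a0 * a0 + a1 * a1 + (a2 - x) * (a2 + x) +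
      (a3 - y) * (a3 + y) + (x ^ 2 + y ^ 2 - n) := by ring
    rw [e]
    exact dvd_add (dvd_add (dvd_add (dvd_add (hb0.mul_right _) (hb1.mul_right _)) (hb2.mul_right _))
      (hb3.mul_right _)) hxy
  have hsN' : N' ^ 2 ∣ (∑ i, u' i ^ 2) - (n : ℤ) := by
    rw [hsum]
    have e : a0 ^ 2 + a1 ^ 2 + a2 ^ 2 + a3 ^ 2 - (n : ℤ) = (a0 - x') * (a0 + x') + (a1 - y') * (a1 + y') + a2 * a2 +
      a3 * a3 + (x' ^ 2 + y' ^ 2 - n) := by ring
    rw [e]
    exact dvd_add (dvd_add (dvd_add (dvd_add (hc0.mul_right _) (hc1.mul_right _)) (hc2.mul_right _))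
      (hc3.mul_right _)) hxy'
  have hgood' : GoodG n D' u' := by
    refine ⟨?_, ?_⟩
    · rw [hD']
      have e : (2 : ℤ) * (D * N ^ 2 * N' ^ 2) = 2 * D * N ^ 2 * N' ^ 2 := by ring
      rw [e]
      have c1 : IsCoprime (2 * (D : ℤ)) (N ^ 2) := IsCoprime.mul_left h1.c2.pow_right cDN
      have c2 : IsCoprime (2 * (D : ℤ)) (N' ^ 2) := IsCoprime.mul_left h2.c2.pow_right cDN'
      exact IsCoprime.mul_dvd (IsCoprime.mul_left c2 cNN') (IsCoprime.mul_dvd c1 hg.1 hsN) hsN'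
    · intro l hl hlD
      have hlp : Prime (l : ℤ) := Nat.prime_iff_prime_int.1 hl
      have h5 : (l : ℤ) ∣ D * N ^ 2 * N' ^ 2 := by rw [← hD']; exact_mod_cast hlD
      rcases hlp.dvd_or_dvd h5 with h6 | h6
      · rcases hlp.dvd_or_dvd h6 with h7 | h7
        · exact hg.2 l hl (by exact_mod_cast h7)
        · by_contra hall
          push Not at hall
          apply hxyp l hlp h7
          constructor
          · have e : x = a2 - (a2 - x) := by ring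
            rw [e]; exact dvd_sub (hall 2) (h7.trans hb2)
          · have e : y = a3 - (a3 - y) := by ring
            rw [e]; exact dvd_sub (hall 3) (h7.trans hb3)
      · by_contra hall
        push Not at hall
        apply hxyp' l hlp h6
        constructor
        · have e : x' = a0 - (a0 - x') := by ring
          rw [e]; exact dvd_sub (hall 0) (h6.trans hc0)
        · have e : y' = a1 - (a1 - y') := by ring
          rw [e]; exact dvd_sub (hall 1) (h6.trans hc1)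
  refine ⟨u', hgood', ?_⟩
  -- the injection
  have hN2 : (0 : ℤ) < N ^ 2 := by have := h1.hN; positivity
  have hN2' : (0 : ℤ) < N' ^ 2 := by have := h2.hN; positivity
  have hdiv : ∀ X ∈ repsc n D' u', N ^ 2 ∣ X 0 ∧ N ^ 2 ∣ X 1 ∧ N' ^ 2 ∣ X 2 ∧ N' ^ 2 ∣ X 3 ∧
      ∀ i, (D : ℤ) ∣ X i - u i := by
    intro X hX
    rw [mem_repsc] at hX
    have dN : N ^ 2 ∣ (D' : ℤ) := by rw [hD']; exact ⟨D * N' ^ 2, by ring⟩
    have dN' : N' ^ 2 ∣ (D' : ℤ) := by rw [hD']; exact ⟨D * N ^ 2, by ring⟩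
    have dD : (D : ℤ) ∣ (D' : ℤ) := by rw [hD']; exact ⟨N ^ 2 * N' ^ 2, by ring⟩
    have aux : ∀ (m : ℤ) (i : Fin 4), m ∣ (D' : ℤ) → m ∣ u' i → m ∣ X i := by
      intro m i hm hi
      have e : X i = (X i - u' i) + u' i := by ring
      rw [e]; exact dvd_add (hm.trans (hX.2 i)) hi
    refine ⟨aux _ 0 dN hb0, aux _ 1 dN hb1, aux _ 2 dN' hc2, aux _ 3 dN' hc3, fun i => ?_⟩
    have e : X i - u i = (X i - u' i) + (u' i - u i) := by ring
    rw [e]; exact dvd_add (dD.trans (hX.2 i)) (hDu' i)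
  have hk : ∀ X : Fin 4 → ℤ, ∃ k : Fin 5 × Fin 5, ∀ i, 0 ≤ rotv P Q N P' Q' N' k X i := by
    intro X
    obtain ⟨k1, hk1, hk1'⟩ := cover P Q N h1.hN.le h1.hP h1.hQ (X 0 / N ^ 2) (X 1 / N ^ 2)
    obtain ⟨k2, hk2, hk2'⟩ := cover P' Q' N' h2.hN.le h2.hP h2.hQ (X 2 / N' ^ 2) (X 3 / N' ^ 2)
    refine ⟨(k1, k2), fun i => ?_⟩
    unfold rotv
    fin_cases i
    · exact hk1
    · exact hk1'
    · exact hk2
    · exact hk2'
  choose kk hkk using hk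
  have hcard : (repsc n D' u').card ≤ ((Finset.univ : Finset (Fin 5 × Fin 5)) ×ˢ orth n D u).card := by
    apply Finset.card_le_card_of_injOn (fun X => (kk X, rotv P Q N P' Q' N' (kk X) X))
    · intro X hX
      have hX' := hdiv X hX
      rw [Finset.mem_coe, mem_repsc] at hX
      obtain ⟨⟨w0, hw0⟩, ⟨w1, hw1⟩, ⟨w2, hw2⟩, ⟨w3, hw3⟩, hXD⟩ := hX'
      have q0 : X 0 / N ^ 2 = w0 := by rw [hw0]; exact Int.mul_ediv_cancel_left _ hN2.ne'
      have q1 : X 1 / N ^ 2 = w1 := by rw [hw1]; exact Int.mul_ediv_cancel_left _ hN2.ne'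
      have q2 : X 2 / N' ^ 2 = w2 := by rw [hw2]; exact Int.mul_ediv_cancel_left _ hN2'.ne'
      have q3 : X 3 / N' ^ 2 = w3 := by rw [hw3]; exact Int.mul_ediv_cancel_left _ hN2'.ne'
      rw [Finset.mem_coe, Finset.mem_product]
      refine ⟨Finset.mem_univ _, ?_⟩
      rw [mem_orth]
      refine ⟨⟨?_, ?_⟩, hkk X⟩
      · show ∑ i, rotv P Q N P' Q' N' (kk X) X i ^ 2 = n
        have e1 := rc_rs P Q N h1.sq (kk X).1
        have e2 := rc_rs P' Q' N' h2.sq (kk X).2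
        have e3 : ∑ i, X i ^ 2 = (n : ℤ) := hX.1
        rw [Fin.sum_univ_four, hw0, hw1, hw2, hw3] at e3
        rw [Fin.sum_univ_four]
        simp only [rotv, Matrix.cons_val_zero, Matrix.cons_val_one, Matrix.cons_val, q0, q1, q2, q3]
        linear_combination (w0 ^ 2 + w1 ^ 2) * e1 + (w2 ^ 2 + w3 ^ 2) * e2 + e3
      · have c1 := rc_congr P Q N D h1.d1 h1.d2 (kk X).1
        have s1 := rs_congr P Q N D h1.d2 (kk X).1
        have c2 := rc_congr P' Q' N' D h2.d1 h2.d2 (kk X).2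
        have s2 := rs_congr P' Q' N' D h2.d2 (kk X).2
        intro i
        fin_cases i
        · show (D : ℤ) ∣ rotv P Q N P' Q' N' (kk X) X 0 - u 0
          simp only [rotv, Matrix.cons_val_zero, q0, q1]
          have e : rc P Q N (kk X).1 * w0 - rs P Q N (kk X).1 * w1 - u 0 =
            (rc P Q N (kk X).1 - N ^ 2) * w0 - rs P Q N (kk X).1 * w1 + (X 0 - u 0) := by rw [hw0]; ring
          rw [e]
          exact dvd_add (dvd_sub (c1.mul_right _) (s1.mul_right _)) (hXD 0)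
        · show (D : ℤ) ∣ rotv P Q N P' Q' N' (kk X) X 1 - u 1
          simp only [rotv, Matrix.cons_val_one, Matrix.cons_val_zero, q0, q1]
          have e : rs P Q N (kk X).1 * w0 + rc P Q N (kk X).1 * w1 - u 1 =
            rs P Q N (kk X).1 * w0 + (rc P Q N (kk X).1 - N ^ 2) * w1 + (X 1 - u 1) := by rw [hw1]; ring
          rw [e]
          exact dvd_add (dvd_add (s1.mul_right _) (c1.mul_right _)) (hXD 1)
        · show (D : ℤ) ∣ rotv P Q N P' Q' N' (kk X) X 2 - u 2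
          simp only [rotv, Matrix.cons_val, q2, q3]
          have e : rc P' Q' N' (kk X).2 * w2 - rs P' Q' N' (kk X).2 * w3 - u 2 =
            (rc P' Q' N' (kk X).2 - N' ^ 2) * w2 - rs P' Q' N' (kk X).2 * w3 + (X 2 - u 2) := by rw [hw2]; ring
          rw [e]
          exact dvd_add (dvd_sub (c2.mul_right _) (s2.mul_right _)) (hXD 2)
        · show (D : ℤ) ∣ rotv P Q N P' Q' N' (kk X) X 3 - u 3
          simp only [rotv, Matrix.cons_val, q2, q3]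
          have e : rs P' Q' N' (kk X).2 * w2 + rc P' Q' N' (kk X).2 * w3 - u 3 =
            rs P' Q' N' (kk X).2 * w2 + (rc P' Q' N' (kk X).2 - N' ^ 2) * w3 + (X 3 - u 3) := by rw [hw3]; ring
          rw [e]
          exact dvd_add (dvd_add (s2.mul_right _) (c2.mul_right _)) (hXD 3)
    · intro X hX Y hY hXY
      have hX' := hdiv X hX
      have hY' := hdiv Y hY
      simp only [Prod.mk.injEq] at hXY
      obtain ⟨hkXY, hr⟩ := hXY
      rw [← hkXY] at hr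
      have r0 := congrFun hr 0
      have r1 := congrFun hr 1
      have r2 := congrFun hr 2
      have r3 := congrFun hr 3
      simp only [rotv, Matrix.cons_val_zero, Matrix.cons_val_one, Matrix.cons_val] at r0 r1 r2 r3
      have hN4 : N ^ 4 ≠ 0 := by have := h1.hN; positivity
      have hN4' : N' ^ 4 ≠ 0 := by have := h2.hN; positivity
      obtain ⟨t0, t1⟩ := rot_inj _ _ _ hN4 (rc_rs P Q N h1.sq (kk X).1) _ _ _ _ r0 r1
      obtain ⟨t2, t3⟩ := rot_inj _ _ _ hN4' (rc_rs P' Q' N' h2.sq (kk X).2) _ _ _ _ r2 r3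
      funext i
      fin_cases i
      · show X 0 = Y 0
        rw [← Int.ediv_mul_cancel hX'.1, ← Int.ediv_mul_cancel hY'.1, t0]
      · show X 1 = Y 1
        rw [← Int.ediv_mul_cancel hX'.2.1, ← Int.ediv_mul_cancel hY'.2.1, t1]
      · show X 2 = Y 2
        rw [← Int.ediv_mul_cancel hX'.2.2.1, ← Int.ediv_mul_cancel hY'.2.2.1, t2]
      · show X 3 = Y 3
        rw [← Int.ediv_mul_cancel hX'.2.2.2.1, ← Int.ediv_mul_cancel hY'.2.2.2.1, t3]
  rw [Finset.card_product] at hcard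
  simpa using hcard

end Pool.Agent.TH696.FA
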