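import Pool.Agent.TH696.FA.Orth

/-!
# Many representations with nonnegative coordinates in every admissible class modulo `D ≤ n ^ δ`
-/

set_option autoImplicit false
open Finset

namespace Pool.Agent.TH696.FA
open Pool.Agent.W65.FS

lemma size_bound (D : ℕ) (hD : 4 ≤ D) : 41 * D ^ 2 + 10 * D + 1 ≤ D ^ 5 := by
  have h1 : 64 ≤ D ^ 3 := by
    calc 64 = 4 ^ 3 := by norm_num
      _ ≤ D ^ 3 := Nat.pow_le_pow_left hD 3
  have h2 : D ^ 5 = D ^ 3 * D ^ 2 := by ring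
  have h3 : 64 * D ^ 2 ≤ D ^ 3 * D ^ 2 := Nat.mul_le_mul_right _ h1
  have h4 : 10 * D + 1 ≤ 23 * D ^ 2 := by nlinarith
  omega

/-- **many nonnegative representations in every admissible class** -/
theorem orth_count (ε : ℝ) (hε : 0 < ε) : ∃ δ : ℝ, 0 < δ ∧ ∃ n0 : ℕ, ∀ (n D : ℕ), n0 ≤ n → Odd n → 0 < D → 4 ∣ D →
    (D : ℝ) ≤ (n : ℝ) ^ δ → ∀ u : Fin 4 → ℤ, GoodG n D u → (n : ℝ) ^ (1 - ε) ≤ ((orth n D u).card : ℝ) := by
  obtain ⟨δ, hδ, n1, h⟩ := class_count (ε / 2) (by positivity)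
  obtain ⟨n2, hn2⟩ := large_rp 25 (ε / 2) (by positivity)
  refine ⟨δ / 71, by positivity, n1 + n2, ?_⟩
  intro n D hn hno hD h4 hDn u hu
  have hD4 : 4 ≤ D := Nat.le_of_dvd hD h4
  set N1 : ℕ := 41 * D ^ 2 + 10 * D + 1 with hN1
  set D2 : ℕ := D * N1 with hD2
  set N2 : ℕ := 41 * D2 ^ 2 + 10 * D2 + 1 with hN2
  have hN1D := size_bound D hD4
  have hD2pos : 0 < D2 := Nat.mul_pos hD (by omega)
  have hD24 : 4 ≤ D2 := by
    calc 4 = 4 * 1 := by norm_num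
      _ ≤ D * N1 := Nat.mul_le_mul hD4 (by omega)
  have hD2D : D2 ≤ D ^ 6 := by
    calc D2 ≤ D * D ^ 5 := Nat.mul_le_mul_left _ hN1D
      _ = D ^ 6 := by ring
  have hN2D : N2 ≤ D ^ 30 := by
    calc N2 ≤ D2 ^ 5 := size_bound D2 hD24
      _ ≤ (D ^ 6) ^ 5 := Nat.pow_le_pow_left hD2D 5
      _ = D ^ 30 := by ring
  have h4D2 : 4 ∣ D2 := h4.mul_right _
  have r1 := rotData (D : ℤ) (by exact_mod_cast hD) (by exact_mod_cast h4)
  have r2 := rotData (D2 : ℤ) (by exact_mod_cast hD2pos) (by exact_mod_cast h4D2)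
  have e1 : (41 * (D : ℤ) ^ 2 + 10 * D + 1) = (N1 : ℤ) := by rw [hN1]; push_cast; ring
  have e2 : (41 * (D2 : ℤ) ^ 2 + 10 * D2 + 1) = (N2 : ℤ) := by rw [hN2]; push_cast; ring
  rw [e1] at r1
  rw [e2] at r2
  have eD2 : (D2 : ℤ) = D * N1 := by rw [hD2]; push_cast; ring
  have r2' : RotData (D : ℤ) (9 * (D2 : ℤ) ^ 2 + 10 * D2 + 1) (40 * (D2 : ℤ) ^ 2 + 8 * D2) (N2 : ℤ) := by
    refine ⟨r2.sq, r2.hN, r2.hP, r2.hQ, ?_, ?_, r2.cQ, r2.c2, ?_⟩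
    · exact (Dvd.intro (N1 : ℤ) eD2.symm).trans r2.d1
    · exact (Dvd.intro (N1 : ℤ) eD2.symm).trans r2.d2
    · have := r2.cD
      rw [eD2] at this
      exact this.of_mul_left_left
  have c12 : IsCoprime (N1 : ℤ) (N2 : ℤ) := by
    have := r2.cD
    rw [eD2] at this
    exact this.of_mul_left_right
  set D' : ℕ := D * N1 ^ 2 * N2 ^ 2 with hD'
  obtain ⟨u', hu', hcard⟩ := orth_engine n D h4 u hu _ _ _ _ _ _ r1 r2' c12 D' (by rw [hD']; push_cast; ring)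
  have hD'pos : 0 < D' := by positivity
  have h4D' : 4 ∣ D' := by
    rw [hD']
    exact (h4.mul_right _).mul_right _
  have hD'D : D' ≤ D ^ 71 := by
    calc D' ≤ D * (D ^ 5) ^ 2 * (D ^ 30) ^ 2 := by
          rw [hD']
          exact Nat.mul_le_mul (Nat.mul_le_mul_left _ (Nat.pow_le_pow_left hN1D 2)) (Nat.pow_le_pow_left hN2D 2)
      _ = D ^ 71 := by ring
  have hn0 : (0 : ℝ) < n := by exact_mod_cast hno.pos
  have hD'n : (D' : ℝ) ≤ (n : ℝ) ^ δ := by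
    calc (D' : ℝ) ≤ (D : ℝ) ^ 71 := by exact_mod_cast hD'D
      _ ≤ ((n : ℝ) ^ (δ / 71)) ^ 71 := by gcongr
      _ = (n : ℝ) ^ δ := by
        rw [← Real.rpow_natCast, ← Real.rpow_mul hn0.le]
        congr 1; push_cast; ring
  have h5 := h n D' (by omega) hno hD'pos h4D' hD'n u' hu'
  have h6 : ((repsc n D' u').card : ℝ) ≤ 25 * ((orth n D u).card : ℝ) := by exact_mod_cast hcard
  have h7 := hn2 n (by omega)
  have h8 : (n : ℝ) ^ (1 - ε) * (n : ℝ) ^ (ε / 2) = (n : ℝ) ^ (1 - ε / 2) := by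
    rw [← Real.rpow_add hn0]; congr 1; ring
  have h9 : (n : ℝ) ^ (1 - ε) * 25 ≤ (n : ℝ) ^ (1 - ε) * (n : ℝ) ^ (ε / 2) := by gcongr
  linarith

end Pool.Agent.TH696.FA
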